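import Mathlib
import Pool.Agent.Helper591.APRec

/-!
Density of sets of integers given by congruence conditions modulo pairwise coprime numbers.
-/

namespace Pool.Agent.H74R2.PPC

open Finset

/-- `E` has natural density zero. -/
def DensityZero (E : Set ℕ) : Prop :=
  ∀ ε : ℝ, 0 < ε → ∃ N0 : ℕ, ∀ N : ℕ, N0 ≤ N → ((E ∩ Set.Iio N).ncard : ℝ) ≤ ε * N

lemma DensityZero.mono {E F : Set ℕ} (h : DensityZero F) (hs : E ⊆ F) : DensityZero E := by
  intro ε hε
  obtain ⟨N0, h0⟩ := h ε hε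
  refine ⟨N0, fun N hN => le_trans ?_ (h0 N hN)⟩
  exact_mod_cast Set.ncard_le_ncard (Set.inter_subset_inter_left _ hs)
    ((Set.finite_Iio N).subset Set.inter_subset_right)

lemma count_nat {ι : Type*} [DecidableEq ι] (s : Finset ι) (m : ι → ℕ)
    (hm : ∀ i ∈ s, 0 < m i)
    (hco : Set.Pairwise (s : Set ι) (Function.onFun Nat.Coprime m)) (A : ∀ i, Finset (ZMod (m i)))
    (N : ℕ) :
    #{n ∈ range N | ∀ i ∈ s, ((n : ℕ) : ZMod (m i)) ∈ A i}
      ≤ (N / (∏ i ∈ s, m i) + 1) * ∏ i ∈ s, #(A i) := by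
  classical
  set M := ∏ i ∈ s, m i with hM
  have hMpos : 0 < M := Finset.prod_pos hm
  rw [← Finset.card_range (N / M + 1), ← Finset.card_pi, ← Finset.card_product]
  apply Finset.card_le_card_of_injOn (fun n => (n / M, fun i (_ : i ∈ s) => ((n : ℕ) : ZMod (m i))))
  · intro n hn
    simp only [coe_filter, mem_range, Set.mem_ofPred_eq] at hn
    simp only [coe_product, Set.mem_prod, mem_coe, mem_range, Finset.mem_pi]
    refine ⟨?_, fun i hi => hn.2 i hi⟩
    exact Nat.lt_succ_of_le (Nat.div_le_div_right hn.1.le)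
  · intro a _ b _ hab
    simp only [Prod.mk.injEq] at hab
    obtain ⟨h1, h2⟩ := hab
    have h3 : ∀ i ∈ s, (m i : ℤ) ∣ (a : ℤ) - b := by
      intro i hi
      have := congrFun (congrFun h2 i) hi
      rw [← ZMod.intCast_eq_intCast_iff_dvd_sub]
      push_cast
      exact this.symm
    have h4 : ((M : ℕ) : ℤ) ∣ (a : ℤ) - b := by
      rw [hM]
      push_cast
      apply Finset.prod_dvd_of_coprime _ h3
      intro i hi j hj hij
      exact Nat.isCoprime_iff_coprime.2 (hco hi hj hij)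
    have h5 : a % M = b % M := by
      have : (b : ℤ) ≡ a [ZMOD M] := (Int.modEq_iff_dvd).2 h4
      exact ((Int.natCast_modEq_iff).1 this).symm
    rw [← Nat.div_add_mod a M, ← Nat.div_add_mod b M, h1, h5]

lemma count_real {ι : Type*} [DecidableEq ι] (s : Finset ι) (m : ι → ℕ)
    (hm : ∀ i ∈ s, 0 < m i)
    (hco : Set.Pairwise (s : Set ι) (Function.onFun Nat.Coprime m)) (A : ∀ i, Finset (ZMod (m i)))
    (w : ι → ℝ) (hw : ∀ i ∈ s, (#(A i) : ℝ) ≤ m i * Real.exp (-w i)) (N : ℕ) :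
    (#{n ∈ range N | ∀ i ∈ s, ((n : ℕ) : ZMod (m i)) ∈ A i} : ℝ)
      ≤ N * Real.exp (-∑ i ∈ s, w i) + ∏ i ∈ s, (#(A i) : ℝ) := by
  have h1 := count_nat s m hm hco A N
  have h2 : (#{n ∈ range N | ∀ i ∈ s, ((n : ℕ) : ZMod (m i)) ∈ A i} : ℝ)
      ≤ ((N / (∏ i ∈ s, m i) : ℕ) + 1) * ∏ i ∈ s, (#(A i) : ℝ) := by exact_mod_cast h1
  refine h2.trans ?_
  rw [add_mul, one_mul]
  apply add_le_add_left
  have h3 : ∏ i ∈ s, (#(A i) : ℝ) ≤ (∏ i ∈ s, (m i : ℝ)) * Real.exp (-∑ i ∈ s, w i) := by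
    rw [← Finset.sum_neg_distrib, Real.exp_sum, ← Finset.prod_mul_distrib]
    exact Finset.prod_le_prod (fun i _ => by positivity) hw
  have hpos : (0 : ℝ) < ∏ i ∈ s, (m i : ℝ) := Finset.prod_pos fun i hi => by exact_mod_cast hm i hi
  have h4 : ((N / (∏ i ∈ s, m i) : ℕ) : ℝ) ≤ N / ∏ i ∈ s, (m i : ℝ) := by
    have := @Nat.cast_div_le ℝ _ _ _ N (∏ i ∈ s, m i)
    push_cast at this
    exact this
  calc ((N / (∏ i ∈ s, m i) : ℕ) : ℝ) * ∏ i ∈ s, (#(A i) : ℝ)
      ≤ (N / ∏ i ∈ s, (m i : ℝ)) * ((∏ i ∈ s, (m i : ℝ)) * Real.exp (-∑ i ∈ s, w i)) := by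
        apply mul_le_mul h4 h3 (Finset.prod_nonneg fun i _ => by positivity) (by positivity)
    _ = N * Real.exp (-∑ i ∈ s, w i) := by field_simp

/-- from the divergence of the reciprocals of the primes satisfying `P`. -/
def DivRecip (P : ℕ → Prop) : Prop :=
  ∀ (B : ℕ) (C : ℝ), ∃ s : Finset ℕ, (∀ p ∈ s, p.Prime ∧ P p ∧ B < p) ∧ C ≤ ∑ p ∈ s, (1 : ℝ) / p

lemma divRecip_class {q : ℕ} [NeZero q] {a : ZMod q} (ha : IsUnit a) :
    DivRecip (fun p => (p : ZMod q) = a) := by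
  classical
  intro B C
  by_contra hcon
  push Not at hcon
  apply Helper591.APRec.not_summable_g ha
  have hnn : ∀ n, 0 ≤ Helper591.APRec.g a n := Helper591.APRec.g_nonneg a
  apply summable_of_sum_le (c := C + ∑ n ∈ range (B + 1), Helper591.APRec.g a n) hnn
  intro u
  have h1 : ∑ x ∈ u, Helper591.APRec.g a x
      ≤ ∑ x ∈ u.filter (fun n : ℕ => n.Prime ∧ (n : ZMod q) = a ∧ B < n), (1 : ℝ) / x
        + ∑ n ∈ range (B + 1), Helper591.APRec.g a n := by
    rw [← Finset.sum_filter_add_sum_filter_not u (fun n : ℕ => n.Prime ∧ (n : ZMod q) = a ∧ B < n)]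
    apply add_le_add
    · apply Finset.sum_le_sum
      intro x hx
      have := (Finset.mem_filter.1 hx).2
      unfold Helper591.APRec.g
      rw [if_pos ⟨this.1, this.2.1⟩]
    · have h2 : ∑ x ∈ u.filter (fun n : ℕ => ¬ (n.Prime ∧ (n : ZMod q) = a ∧ B < n)),
          Helper591.APRec.g a x
          ≤ ∑ x ∈ u.filter (fun n => n ∈ range (B + 1)), Helper591.APRec.g a x := by
        rw [Finset.sum_filter, Finset.sum_filter]
        apply Finset.sum_le_sum
        intro x _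
        by_cases hx : x ∈ range (B + 1)
        · rw [if_pos hx]
          by_cases h3 : ¬ (x.Prime ∧ (x : ZMod q) = a ∧ B < x)
          · rw [if_pos h3]
          · rw [if_neg h3]; exact hnn x
        · rw [if_neg hx]
          by_cases h3 : ¬ (x.Prime ∧ (x : ZMod q) = a ∧ B < x)
          · rw [if_pos h3]
            have hB : B < x := by simpa using hx
            unfold Helper591.APRec.g
            rw [if_neg]
            rintro ⟨h4, h5⟩
            exact h3 ⟨h4, h5, hB⟩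
          · rw [if_neg h3]
      refine h2.trans ?_
      apply Finset.sum_le_sum_of_subset_of_nonneg
      · intro x hx; exact (Finset.mem_filter.1 hx).2
      · intro x _ _; exact hnn x
  refine h1.trans ?_
  gcongr
  apply le_of_lt
  apply hcon
  intro p hp
  have := (Finset.mem_filter.1 hp).2
  exact ⟨this.1, this.2.1, this.2.2⟩

/-- the residues mod `p ^ 2` which are not exactly divisible by `p`. -/
def notExact (p : ℕ) : Finset (ZMod (p ^ 2)) :=
  if h : p ^ 2 = 0 then ∅ else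
    haveI : NeZero (p ^ 2) := ⟨h⟩
    (univ : Finset (ZMod (p ^ 2))).filter fun x => ¬ (p ∣ x.val ∧ x ≠ 0)

lemma mem_notExact {p : ℕ} (hp : p.Prime) (n : ℕ) :
    (n : ZMod (p ^ 2)) ∈ notExact p ↔ ¬ (p ∣ n ∧ ¬ p ^ 2 ∣ n) := by
  have h : p ^ 2 ≠ 0 := by have := hp.pos; positivity
  unfold notExact
  rw [dif_neg h]
  simp only [mem_filter, mem_univ, true_and]
  rw [Ne, ZMod.natCast_eq_zero_iff, ZMod.val_natCast,
    Nat.dvd_mod_iff (show p ∣ p ^ 2 from dvd_pow_self p two_ne_zero)]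

lemma card_notExact {p : ℕ} (hp : p.Prime) :
    (#(notExact p) : ℝ) ≤ (p ^ 2 : ℕ) * Real.exp (-(1 / (2 * p) : ℝ)) := by
  have h : p ^ 2 ≠ 0 := by have := hp.pos; positivity
  have hne : NeZero (p ^ 2) := ⟨h⟩
  have h1 : #(notExact p) + (p - 1) ≤ p ^ 2 := by
    have h2 : #(notExact p)ᶜ + #(notExact p) = p ^ 2 := by
      rw [Finset.card_compl_add_card, ZMod.card]
    have h3 : p - 1 ≤ #(notExact p)ᶜ := by
      rw [← Nat.card_Icc 1 (p - 1) |>.trans (by omega : p - 1 + 1 - 1 = p - 1)]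
      apply Finset.card_le_card_of_injOn (fun k => ((p * k : ℕ) : ZMod (p ^ 2)))
      · intro k hk
        simp only [coe_Icc, Set.mem_Icc] at hk
        simp only [coe_compl, Set.mem_compl_iff, mem_coe]
        rw [mem_notExact hp, not_not]
        refine ⟨dvd_mul_right _ _, fun hd => ?_⟩
        rw [pow_two] at hd
        have hd2 := Nat.dvd_of_mul_dvd_mul_left hp.pos hd
        have := Nat.le_of_dvd (by omega) hd2
        omega
      · intro a ha b hb hab
        simp only [coe_Icc, Set.mem_Icc] at ha hb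
        simp only at hab
        rw [ZMod.natCast_eq_natCast_iff, Nat.ModEq, Nat.mod_eq_of_lt, Nat.mod_eq_of_lt] at hab
        · exact Nat.eq_of_mul_eq_mul_left hp.pos hab
        · rw [pow_two]; exact Nat.mul_lt_mul_of_pos_left (by omega) hp.pos
        · rw [pow_two]; exact Nat.mul_lt_mul_of_pos_left (by omega) hp.pos
    omega
  have hp1 : (2 : ℝ) ≤ p := by exact_mod_cast hp.two_le
  have h4 : (#(notExact p) : ℝ) ≤ (p : ℝ) ^ 2 - (p - 1) := by
    have : ((#(notExact p) + (p - 1) : ℕ) : ℝ) ≤ ((p ^ 2 : ℕ) : ℝ) := by exact_mod_cast h1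
    rw [Nat.cast_add, Nat.cast_sub hp.one_lt.le] at this
    push_cast at this
    linarith
  have h5 : (1 : ℝ) - 1 / (2 * p) ≤ Real.exp (-(1 / (2 * p) : ℝ)) := by
    have := Real.add_one_le_exp (-(1 / (2 * p) : ℝ))
    linarith
  have h6 : (p : ℝ) ^ 2 - (p - 1) ≤ (p : ℝ) ^ 2 * (1 - 1 / (2 * p)) := by
    have : (p : ℝ) ^ 2 * (1 - 1 / (2 * p)) = p ^ 2 - p / 2 := by
      field_simp
    rw [this]; linarith
  push_cast
  calc (#(notExact p) : ℝ) ≤ (p : ℝ) ^ 2 * (1 - 1 / (2 * p)) := h4.trans h6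
    _ ≤ _ := mul_le_mul_of_nonneg_left h5 (by positivity)

/-- the residues mod `q` different from `r`. -/
def notRes (q r : ℕ) : Finset (ZMod q) :=
  if h : q = 0 then ∅ else
    haveI : NeZero q := ⟨h⟩
    (univ : Finset (ZMod q)).filter fun x => x ≠ (r : ZMod q)

lemma mem_notRes {q : ℕ} (hq : q.Prime) (r n : ℕ) :
    (n : ZMod q) ∈ notRes q r ↔ ¬ (n : ZMod q) = r := by
  unfold notRes
  rw [dif_neg hq.ne_zero]
  simp

lemma card_notRes {q : ℕ} (hq : q.Prime) (r : ℕ) :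
    (#(notRes q r) : ℝ) ≤ q * Real.exp (-(1 / q : ℝ)) := by
  have hne : NeZero q := ⟨hq.ne_zero⟩
  have h1 : #(notRes q r) = q - 1 := by
    unfold notRes
    rw [dif_neg hq.ne_zero]
    have : (univ.filter fun x : ZMod q => x ≠ (r : ZMod q)) = univ.erase (r : ZMod q) := by
      ext x; simp
    rw [this, Finset.card_erase_of_mem (Finset.mem_univ _), Finset.card_univ, ZMod.card]
  have hq0 : (0 : ℝ) < q := by exact_mod_cast hq.pos
  rw [h1, Nat.cast_sub hq.one_lt.le]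
  have := Real.add_one_le_exp (-(1 / q : ℝ))
  calc (q : ℝ) - (1 : ℕ) = q * (-(1 / q : ℝ) + 1) := by field_simp; push_cast; ring
    _ ≤ _ := mul_le_mul_of_nonneg_left this hq0.le

/-- For a family of odd primes `q` (those satisfying `P`) with divergent sum of reciprocals and
residues `r q`: for almost all `n` there are `q` in the family with `n = r q` mod `q` and a prime
`p ≠ q` exactly dividing `n` which is a quadratic nonresidue mod `q`. -/
theorem almost_all (P : ℕ → Prop) (hP : DivRecip P) (hodd : ∀ q, q.Prime → P q → q ≠ 2)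
    (r : ℕ → ℕ) :
    DensityZero {n : ℕ | ¬ ∃ q : ℕ, q.Prime ∧ P q ∧ (n : ZMod q) = r q ∧
      ∃ p : ℕ, p.Prime ∧ p ≠ q ∧ p ∣ n ∧ ¬ p ^ 2 ∣ n ∧ ((p ^ (q / 2) : ℕ) : ZMod q) = -1} := by
  classical
  intro ε hε
  -- choice of the primes `q`
  obtain ⟨Q, hQ, hQs⟩ := hP 0 (Real.log (3 / ε))
  -- nonresidues
  have hnr : ∀ q : ℕ, ∃ a : ZMod q, q.Prime → P q → a ≠ 0 ∧ a ^ (q / 2) = -1 := by
    intro q
    by_cases h : q.Prime ∧ P q
    · obtain ⟨hq, hPq⟩ := h
      have : Fact q.Prime := ⟨hq⟩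
      have hch : ringChar (ZMod q) ≠ 2 := by
        rw [ZMod.ringChar_zmod_n]; exact hodd q hq hPq
      obtain ⟨a, ha⟩ := FiniteField.exists_nonsquare hch
      have ha0 : a ≠ 0 := by rintro rfl; exact ha (IsSquare.zero)
      refine ⟨a, fun _ _ => ⟨ha0, ?_⟩⟩
      rcases ZMod.pow_div_two_eq_neg_one_or_one q ha0 with h1 | h1
      · exact absurd ((ZMod.euler_criterion q ha0).2 h1) ha
      · exact h1
    · refine ⟨0, fun h1 h2 => absurd ⟨h1, h2⟩ h⟩
  choose a ha using hnr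
  -- choice of the primes `p`
  have hS : ∀ q : ℕ, ∃ s : Finset ℕ, q ∈ Q →
      (∀ p ∈ s, p.Prime ∧ (p : ZMod q) = a q) ∧ Real.log (3 * #Q / ε) ≤ ∑ p ∈ s, (1 / (2 * p) : ℝ) := by
    intro q
    by_cases hq : q ∈ Q
    · obtain ⟨hqp, hqP, _⟩ := hQ q hq
      have : Fact q.Prime := ⟨hqp⟩
      have : NeZero q := ⟨hqp.ne_zero⟩
      obtain ⟨s, hs1, hs2⟩ := divRecip_class (q := q) (a := a q)
        ((ha q hqp hqP).1.isUnit) 0 (2 * Real.log (3 * #Q / ε))
      refine ⟨s, fun _ => ⟨fun p hp => ⟨(hs1 p hp).1, (hs1 p hp).2.1⟩, ?_⟩⟩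
      have : ∑ p ∈ s, (1 / (2 * p) : ℝ) = (∑ p ∈ s, (1 : ℝ) / p) / 2 := by
        rw [Finset.sum_div]
        apply Finset.sum_congr rfl
        intro p _
        rw [div_div, mul_comm]
      rw [this]; linarith
    · exact ⟨∅, fun h => absurd h hq⟩
  choose S hSp using hS
  set C0 : ℝ := ∏ q ∈ Q, (#(notRes q (r q)) : ℝ) with hC0
  set C1 : ℝ := ∑ q ∈ Q, ∏ p ∈ S q, (#(notExact p) : ℝ) with hC1
  have hC0n : 0 ≤ C0 := Finset.prod_nonneg fun _ _ => by positivity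
  have hC1n : 0 ≤ C1 := Finset.sum_nonneg fun _ _ => Finset.prod_nonneg fun _ _ => by positivity
  obtain ⟨N0, hN0⟩ := exists_nat_ge (3 * (C0 + C1) / ε)
  refine ⟨N0, fun N hN => ?_⟩
  have hNr : 3 * (C0 + C1) / ε ≤ N := hN0.trans (by exact_mod_cast hN)
  -- the two kinds of bad sets
  set U0 : Finset ℕ := {n ∈ range N | ∀ q ∈ Q, ((n : ℕ) : ZMod q) ∈ notRes q (r q)} with hU0
  set U : ℕ → Finset ℕ := fun q =>
    {n ∈ range N | ∀ p ∈ S q, ((n : ℕ) : ZMod (p ^ 2)) ∈ notExact p} with hU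
  have hsub : ({n : ℕ | ¬ ∃ q : ℕ, q.Prime ∧ P q ∧ (n : ZMod q) = r q ∧
      ∃ p : ℕ, p.Prime ∧ p ≠ q ∧ p ∣ n ∧ ¬ p ^ 2 ∣ n ∧ ((p ^ (q / 2) : ℕ) : ZMod q) = -1}
      ∩ Set.Iio N) ⊆ ((U0 ∪ Q.biUnion U : Finset ℕ) : Set ℕ) := by
    rintro n ⟨hn1, hn2⟩
    simp only [Set.mem_ofPred_eq, Set.mem_Iio] at hn1 hn2
    rw [mem_coe, Finset.mem_union]
    by_contra hcon
    push Not at hcon
    obtain ⟨hc1, hc2⟩ := hcon
    have hn : n ∈ range N := Finset.mem_range.2 hn2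
    have hc1' : ∃ q ∈ Q, ((n : ℕ) : ZMod q) = r q := by
      by_contra hcc
      push Not at hcc
      apply hc1
      rw [hU0, Finset.mem_filter]
      refine ⟨hn, fun q hq => ?_⟩
      rw [mem_notRes (hQ q hq).1]
      exact hcc q hq
    obtain ⟨q, hq, hqr⟩ := hc1'
    apply hn1
    obtain ⟨hqp, hqP, _⟩ := hQ q hq
    refine ⟨q, hqp, hqP, hqr, ?_⟩
    have hc2' : n ∉ U q := fun h => hc2 (Finset.mem_biUnion.2 ⟨q, hq, h⟩)
    rw [hU] at hc2'
    simp only [Finset.mem_filter, hn, true_and] at hc2'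
    push Not at hc2'
    obtain ⟨p, hp, hpn⟩ := hc2'
    obtain ⟨hpp, hpa⟩ := (hSp q hq).1 p hp
    rw [mem_notExact hpp, not_not] at hpn
    obtain ⟨ha0, ha1⟩ := ha q hqp hqP
    refine ⟨p, hpp, ?_, hpn.1, hpn.2, ?_⟩
    · rintro rfl
      rw [ZMod.natCast_self] at hpa
      exact ha0 hpa.symm
    · push_cast
      rw [hpa, ha1]
  have hcard : ((({n : ℕ | ¬ ∃ q : ℕ, q.Prime ∧ P q ∧ (n : ZMod q) = r q ∧
      ∃ p : ℕ, p.Prime ∧ p ≠ q ∧ p ∣ n ∧ ¬ p ^ 2 ∣ n ∧ ((p ^ (q / 2) : ℕ) : ZMod q) = -1}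
      ∩ Set.Iio N).ncard : ℕ) : ℝ) ≤ #U0 + ∑ q ∈ Q, (#(U q) : ℝ) := by
    have h1 := Set.ncard_le_ncard hsub (Finset.finite_toSet _)
    rw [Set.ncard_coe_finset] at h1
    have h2 : #(U0 ∪ Q.biUnion U) ≤ #U0 + ∑ q ∈ Q, #(U q) :=
      (Finset.card_union_le _ _).trans (by gcongr; exact Finset.card_biUnion_le)
    exact_mod_cast h1.trans h2
  refine hcard.trans ?_
  -- first bound
  have hb0 : (#U0 : ℝ) ≤ ε / 3 * N + C0 := by
    have h1 := count_real Q (fun q => q) (fun q hq => (hQ q hq).1.pos)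
      (fun i hi j hj hij => (Nat.coprime_primes (hQ i hi).1 (hQ j hj).1).2 hij)
      (fun q => notRes q (r q)) (fun q => (1 : ℝ) / q) (fun q hq => card_notRes (hQ q hq).1 _) N
    refine h1.trans ?_
    have h2 : Real.exp (-∑ q ∈ Q, (1 : ℝ) / q) ≤ ε / 3 := by
      calc Real.exp (-∑ q ∈ Q, (1 : ℝ) / q) ≤ Real.exp (-Real.log (3 / ε)) :=
            Real.exp_le_exp.2 (by linarith)
        _ = ε / 3 := by rw [Real.exp_neg, Real.exp_log (by positivity), inv_div]
    have : (N : ℝ) * Real.exp (-∑ q ∈ Q, (1 : ℝ) / q) ≤ ε / 3 * N := by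
      rw [mul_comm]; exact mul_le_mul_of_nonneg_right h2 (by positivity)
    linarith
  have hb1 : ∀ q ∈ Q, (#(U q) : ℝ) ≤ ε / (3 * #Q) * N + ∏ p ∈ S q, (#(notExact p) : ℝ) := by
    intro q hq
    have hQpos : (0 : ℝ) < #Q := by exact_mod_cast Finset.card_pos.2 ⟨q, hq⟩
    have h1 := count_real (S q) (fun p => p ^ 2)
      (fun p hp => by have := ((hSp q hq).1 p hp).1.pos; positivity)
      (fun i hi j hj hij => Nat.Coprime.pow 2 2
        ((Nat.coprime_primes ((hSp q hq).1 i hi).1 ((hSp q hq).1 j hj).1).2 hij))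
      (fun p => notExact p) (fun p => (1 / (2 * p) : ℝ))
      (fun p hp => card_notExact ((hSp q hq).1 p hp).1) N
    refine h1.trans ?_
    have h2 : Real.exp (-∑ p ∈ S q, (1 / (2 * p) : ℝ)) ≤ ε / (3 * #Q) := by
      calc Real.exp (-∑ p ∈ S q, (1 / (2 * p) : ℝ)) ≤ Real.exp (-Real.log (3 * #Q / ε)) :=
            Real.exp_le_exp.2 (by linarith [(hSp q hq).2])
        _ = ε / (3 * #Q) := by rw [Real.exp_neg, Real.exp_log (by positivity), inv_div]
    have : (N : ℝ) * Real.exp (-∑ p ∈ S q, (1 / (2 * p) : ℝ)) ≤ ε / (3 * #Q) * N := by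
      rw [mul_comm]; exact mul_le_mul_of_nonneg_right h2 (by positivity)
    linarith
  have hb2 : ∑ q ∈ Q, (#(U q) : ℝ) ≤ ε / 3 * N + C1 := by
    refine (Finset.sum_le_sum hb1).trans ?_
    rw [Finset.sum_add_distrib, Finset.sum_const, nsmul_eq_mul, ← hC1]
    apply add_le_add_left
    rcases Nat.eq_zero_or_pos #Q with h0 | h0
    · rw [h0]; simp; positivity
    · have hQpos : (0 : ℝ) < #Q := by exact_mod_cast h0
      apply le_of_eq
      field_simp
  have hfin : C0 + C1 ≤ ε / 3 * N := by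
    have : 3 * (C0 + C1) ≤ N * ε := by
      rw [div_le_iff₀ hε] at hNr; exact hNr
    linarith
  linarith

end Pool.Agent.H74R2.PPC
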