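import Pool.Agent.H74R2.PPC.Mann

/-!
Mann's test for difference sets in a finite group with a homomorphism onto a group of odd prime
order.
-/

namespace Pool.Agent.H74R2.PPC

open Finset

/-- `D` is a difference set with parameter `lam` in the finite group `G`: every nonidentity element
is a quotient `a * b⁻¹` of elements of `D` in exactly `lam` ways. -/
def IsDiffSet {G : Type*} [Group G] [DecidableEq G] (D : Finset G) (lam : ℕ) : Prop :=
  ∀ g : G, g ≠ 1 → #{x ∈ D ×ˢ D | x.1 * x.2⁻¹ = g} = lam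

variable {G : Type*} [Group G] [Fintype G] [DecidableEq G]

/-- number of elements of `D` above `x`. -/
def fib {q : ℕ} (D : Finset G) (φ : G →* Multiplicative (ZMod q)) (x : ZMod q) : ℤ :=
  (#{d ∈ D | φ d = Multiplicative.ofAdd x} : ℕ)

lemma ac_fib {q : ℕ} [NeZero q] (D : Finset G) (φ : G →* Multiplicative (ZMod q)) (h : ZMod q) :
    ac (fib D φ) h = ∑ g ∈ (univ : Finset G) with φ g = Multiplicative.ofAdd h,
      (#{x ∈ D ×ˢ D | x.1 * x.2⁻¹ = g} : ℤ) := by
  classical
  have h1 : ∑ g ∈ (univ : Finset G) with φ g = Multiplicative.ofAdd h,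
      (#{x ∈ D ×ˢ D | x.1 * x.2⁻¹ = g} : ℤ)
      = (#{x ∈ D ×ˢ D | φ (x.1 * x.2⁻¹) = Multiplicative.ofAdd h} : ℕ) := by
    rw [← Nat.cast_sum]
    congr 1
    rw [Finset.card_eq_sum_card_fiberwise
      (f := fun x : G × G => x.1 * x.2⁻¹)
      (t := (univ : Finset G).filter fun g => φ g = Multiplicative.ofAdd h)]
    · apply Finset.sum_congr rfl
      intro g hg
      congr 1
      ext x
      simp only [mem_filter, mem_univ, true_and] at hg ⊢
      constructor
      · rintro ⟨a, b⟩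
        exact ⟨⟨a, by rw [b]; exact hg⟩, b⟩
      · rintro ⟨⟨a, _⟩, b⟩
        exact ⟨a, b⟩
    · intro x hx
      simp only [coe_filter, mem_product, Set.mem_ofPred_eq] at hx
      simp only [coe_filter, mem_univ, true_and, Set.mem_ofPred_eq]
      exact hx.2
  rw [h1]
  have h2 : #{x ∈ D ×ˢ D | φ (x.1 * x.2⁻¹) = Multiplicative.ofAdd h}
      = ∑ y : ZMod q, #{a ∈ D | φ a = Multiplicative.ofAdd (y + h)} *
          #{b ∈ D | φ b = Multiplicative.ofAdd y} := by
    rw [Finset.card_eq_sum_card_fiberwise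
      (f := fun x : G × G => Multiplicative.toAdd (φ x.2)) (t := (univ : Finset (ZMod q)))]
    · apply Finset.sum_congr rfl
      intro y _
      rw [← Finset.card_product]
      congr 1
      ext x
      simp only [mem_filter, mem_product, map_mul, map_inv]
      constructor
      · rintro ⟨⟨⟨ha, hb⟩, hab⟩, hy⟩
        have hy' : φ x.2 = Multiplicative.ofAdd y := by rw [← hy]; rfl
        refine ⟨⟨ha, ?_⟩, ⟨hb, hy'⟩⟩
        rw [hy', mul_inv_eq_iff_eq_mul] at hab
        rw [hab, ← ofAdd_add, add_comm]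
      · rintro ⟨⟨ha, hab⟩, ⟨hb, hy⟩⟩
        refine ⟨⟨⟨ha, hb⟩, ?_⟩, ?_⟩
        · rw [hab, hy, ← ofAdd_neg, ← ofAdd_add]
          congr 1; ring
        · rw [hy]; rfl
    · intro x _; exact Finset.mem_coe.2 (Finset.mem_univ _)
  rw [h2]
  push_cast
  rfl

omit [DecidableEq G] in
lemma card_fiber {q : ℕ} [NeZero q] (φ : G →* Multiplicative (ZMod q))
    (hφ : Function.Surjective φ) (h : ZMod q) :
    #{g ∈ (univ : Finset G) | φ g = Multiplicative.ofAdd h}
      = #{g ∈ (univ : Finset G) | φ g = 1} := by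
  obtain ⟨g0, hg0⟩ := hφ (Multiplicative.ofAdd h)
  symm
  apply Finset.card_bij (fun g _ => g0 * g)
  · intro g hg
    simp only [mem_filter, mem_univ, true_and] at hg ⊢
    rw [map_mul, hg, mul_one, hg0]
  · intro a _ b _ hab
    exact mul_left_cancel hab
  · intro b hb
    simp only [mem_filter, mem_univ, true_and] at hb
    refine ⟨g0⁻¹ * b, ?_, by group⟩
    simp only [mem_filter, mem_univ, true_and]
    rw [map_mul, map_inv, hg0, hb]; simp

/-- Mann's test for a difference set in a group mapping onto `ZMod q`. -/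
theorem diffset_mann (D : Finset G) (lam : ℕ) (hD : IsDiffSet D lam) {q p : ℕ} (hq : q.Prime)
    (hp : p.Prime) (hpq : p ≠ q) (φ : G →* Multiplicative (ZMod q))
    (hφ : Function.Surjective φ) {j : ℕ} (hj : 1 ≤ j) (hself : ((p ^ j : ℕ) : ZMod q) = -1)
    (e : ℕ) (he : (p : ℤ) ^ e ∣ (#D : ℤ) - lam) (hne : ¬ (p : ℤ) ^ (e + 1) ∣ (#D : ℤ) - lam) :
    Even e := by
  classical
  have : NeZero q := ⟨hq.ne_zero⟩
  set M : ℤ := ((#{g ∈ (univ : Finset G) | φ g = 1} : ℕ) : ℤ) with hM
  have hoff : ∀ h : ZMod q, h ≠ 0 → ac (fib D φ) h = M * lam := by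
    intro h hh
    rw [ac_fib]
    have : ∀ g ∈ (univ : Finset G).filter (fun g => φ g = Multiplicative.ofAdd h),
        (#{x ∈ D ×ˢ D | x.1 * x.2⁻¹ = g} : ℤ) = lam := by
      intro g hg
      simp only [mem_filter, mem_univ, true_and] at hg
      rw [hD g]
      rintro rfl
      rw [map_one] at hg
      exact hh (by simpa using hg.symm)
    rw [Finset.sum_congr rfl this, Finset.sum_const, card_fiber φ hφ h, nsmul_eq_mul, hM]
  have hone : #{x ∈ D ×ˢ D | x.1 * x.2⁻¹ = 1} = #D := by
    symm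
    apply Finset.card_bij (fun d _ => (d, d))
    · intro d hd; simp [hd]
    · intro a _ b _ hab; exact (Prod.ext_iff.1 hab).1
    · rintro ⟨a, b⟩ hx
      simp only [mem_filter, mem_product, mul_inv_eq_one] at hx
      exact ⟨a, hx.1.1, by rw [← hx.2]⟩
  have hzero : ac (fib D φ) 0 = ((#D : ℤ) - lam) + M * lam := by
    rw [ac_fib]
    have h1 : (1 : G) ∈ (univ : Finset G).filter (fun g => φ g = Multiplicative.ofAdd (0 : ZMod q)) := by
      simp
    rw [← Finset.add_sum_erase _ _ h1, hone]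
    have : ∀ g ∈ ((univ : Finset G).filter
        (fun g => φ g = Multiplicative.ofAdd (0 : ZMod q))).erase 1,
        (#{x ∈ D ×ˢ D | x.1 * x.2⁻¹ = g} : ℤ) = lam := by
      intro g hg
      rw [hD g (Finset.ne_of_mem_erase hg)]
    rw [Finset.sum_congr rfl this, Finset.sum_const, Finset.card_erase_of_mem h1,
      card_fiber φ hφ 0, nsmul_eq_mul]
    have hpos : 1 ≤ #{g ∈ (univ : Finset G) | φ g = 1} :=
      Finset.card_pos.2 ⟨1, by simp⟩
    rw [Nat.cast_sub hpos, hM]
    push_cast; ring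
  refine mann hp ?_ hj hself hq.two_le e (fib D φ) _ _ hzero hoff he hne
  intro hdvd
  exact hpq ((Nat.prime_dvd_prime_iff_eq hp hq).1 hdvd)

end Pool.Agent.H74R2.PPC
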