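import Mathlib

/-!
Mann's test: an integer valued function on `ZMod q` (`q` an odd prime) whose autocorrelation is
`N + c` at `0` and `c` elsewhere has an even power of every prime `p` with `p ^ j = -1` mod `q`
exactly dividing `N`.
-/

namespace Pool.Agent.H74R2.PPC

open Finset

/-- the autocorrelation of `f` at `h`. -/
def ac {q : ℕ} [NeZero q] {R : Type*} [CommRing R] (f : ZMod q → R) (h : ZMod q) : R :=
  ∑ x, f (x + h) * f x

lemma sum_ac {q : ℕ} [NeZero q] {R : Type*} [CommRing R] (f : ZMod q → R) :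
    ∑ h, ac f h = (∑ x, f x) ^ 2 := by
  unfold ac
  rw [Finset.sum_comm]
  have : ∀ x : ZMod q, ∑ h, f (x + h) * f x = (∑ y, f y) * f x := by
    intro x
    rw [← Finset.sum_mul]
    congr 1
    exact Fintype.sum_equiv (Equiv.addLeft x) _ _ (fun y => rfl)
  simp_rw [this]
  rw [← Finset.mul_sum, sq]

lemma ac_affine {q : ℕ} [NeZero q] {R : Type*} [CommRing R] (f : ZMod q → R) (a b : R)
    (h : ZMod q) :
    ac (fun x => a * f x + b) h = a ^ 2 * ac f h + 2 * a * b * (∑ x, f x) + q * b ^ 2 := by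
  unfold ac
  have h1 : ∑ x, f (x + h) = ∑ x, f x := Fintype.sum_equiv (Equiv.addRight h) _ _ (fun y => rfl)
  have h2 : ∀ x : ZMod q, (a * f (x + h) + b) * (a * f x + b)
      = a ^ 2 * (f (x + h) * f x) + a * b * f (x + h) + a * b * f x + b ^ 2 := by
    intro x; ring
  simp_rw [h2]
  rw [Finset.sum_add_distrib, Finset.sum_add_distrib, Finset.sum_add_distrib,
    ← Finset.mul_sum, ← Finset.mul_sum, ← Finset.mul_sum, h1]
  simp only [Finset.sum_const, Finset.card_univ, ZMod.card, nsmul_eq_mul]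
  ring

section modp

variable {q p : ℕ} [NeZero q] [Fact p.Prime]

/-- the element of the group algebra mod `p` given by `f`. -/
noncomputable def el (f : ZMod q → ZMod p) : AddMonoidAlgebra (ZMod p) (ZMod q) :=
  ∑ x, AddMonoidAlgebra.single x (f x)

lemma el_coeff (f : ZMod q → ZMod p) (y : ZMod q) : (el f).coeff y = f y := by
  classical
  unfold el
  rw [AddMonoidAlgebra.coeff_sum, Finsupp.finsetSum_apply]
  simp [AddMonoidAlgebra.coeff_single, Finsupp.single_apply]

instance charP_alg : CharP (AddMonoidAlgebra (ZMod p) (ZMod q)) p :=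
  charP_of_injective_algebraMap
    (FaithfulSMul.algebraMap_injective (ZMod p) (AddMonoidAlgebra (ZMod p) (ZMod q))) p

lemma el_pow (f : ZMod q → ZMod p) (j : ℕ) :
    (el f) ^ (p ^ j) = ∑ x, AddMonoidAlgebra.single ((p ^ j : ℕ) • x) (f x) := by
  unfold el
  have : ExpChar (AddMonoidAlgebra (ZMod p) (ZMod q)) p := ExpChar.prime Fact.out
  rw [sum_pow_char_pow]
  apply Finset.sum_congr rfl
  intro x _
  rw [AddMonoidAlgebra.single_pow, ZMod.pow_card_pow]

/-- mod `p` version: all autocorrelations equal implies constant. -/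
lemma const_mod (hpq : (q : ZMod p) ≠ 0) {j : ℕ} (hj : 1 ≤ j)
    (hself : ((p ^ j : ℕ) : ZMod q) = -1) (f : ZMod q → ZMod p) (c : ZMod p)
    (hf : ∀ h, ac f h = c) (x y : ZMod q) : f x = f y := by
  classical
  set σ : ZMod p := ∑ x, f x with hσ
  have hσ2 : (q : ZMod p) * c = σ ^ 2 := by
    have := sum_ac f
    simp_rw [hf] at this
    simpa [Finset.sum_const, Finset.card_univ, ZMod.card] using this
  set g : ZMod q → ZMod p := fun x => (q : ZMod p) * f x + (-σ) with hg
  have hacg : ∀ h, ac g h = 0 := by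
    intro h
    rw [hg, ac_affine, hf, ← hσ]
    have : (q : ZMod p) ^ 2 * c = q * σ ^ 2 := by rw [← hσ2]; ring
    linear_combination this
  have hpow1 : (el g) ^ (p ^ j) = ∑ x, AddMonoidAlgebra.single (-x) (g x) := by
    rw [el_pow]
    apply Finset.sum_congr rfl
    intro x _
    congr 1
    rw [nsmul_eq_mul, hself]; ring
  have hpow2 : (el g) ^ (p ^ (j + j)) = el g := by
    rw [el_pow]
    unfold el
    apply Finset.sum_congr rfl
    intro x _
    congr 1
    rw [nsmul_eq_mul, pow_add]
    push_cast at hself ⊢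
    rw [hself]; ring
  have hmul : el g * (el g) ^ (p ^ j) = 0 := by
    rw [hpow1]
    apply AddMonoidAlgebra.ext
    ext h
    unfold el
    rw [Finset.sum_mul_sum]
    simp_rw [AddMonoidAlgebra.single_mul_single]
    rw [AddMonoidAlgebra.coeff_sum, Finsupp.finsetSum_apply]
    simp_rw [AddMonoidAlgebra.coeff_sum, Finsupp.finsetSum_apply, AddMonoidAlgebra.coeff_single,
      Finsupp.single_apply]
    rw [Finset.sum_comm]
    have : ∀ y : ZMod q, (∑ x, if x + -y = h then g x * g y else 0) = g (y + h) * g y := by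
      intro y
      rw [Finset.sum_eq_single (y + h)]
      · simp
      · intro b _ hb
        rw [if_neg]
        intro hb2
        exact hb (by rw [← hb2]; ring)
      · intro hb; exact absurd (Finset.mem_univ _) hb
    simp_rw [this]
    have := hacg h
    unfold ac at this
    simpa using this
  have hzero : el g = 0 := by
    rw [← hpow2]
    have hle : 1 + p ^ j ≤ p ^ (j + j) := by
      have hp2 : 2 ≤ p := (Fact.out : p.Prime).two_le
      have h2 : 2 ≤ p ^ j := le_trans hp2 (Nat.le_self_pow (by omega) p)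
      rw [pow_add]
      nlinarith
    obtain ⟨k, hk⟩ := Nat.exists_eq_add_of_le hle
    rw [hk, pow_add, pow_add, pow_one, hmul, zero_mul]
  have hgz : ∀ x, g x = 0 := by
    intro x
    rw [← el_coeff g x, hzero]; rfl
  have h1 := hgz x
  have h2 := hgz y
  simp only [hg] at h1 h2
  have h3 : (q : ZMod p) * f x = q * f y := by linear_combination h1 - h2
  exact mul_left_cancel₀ hpq h3

end modp

/-- Mann's test (iterated). -/
theorem mann {q p : ℕ} [NeZero q] (hp : p.Prime) (hpq : ¬ p ∣ q) {j : ℕ} (hj : 1 ≤ j)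
    (hself : ((p ^ j : ℕ) : ZMod q) = -1) (hq2 : 2 ≤ q) :
    ∀ (e : ℕ) (f : ZMod q → ℤ) (N c : ℤ), ac f 0 = N + c → (∀ h, h ≠ 0 → ac f h = c) →
      (p : ℤ) ^ e ∣ N → ¬ (p : ℤ) ^ (e + 1) ∣ N → Even e := by
  have : Fact p.Prime := ⟨hp⟩
  intro e
  induction e using Nat.strong_induction_on with
  | _ e ih =>
  intro f N c h0 hne hd hnd
  rcases Nat.eq_zero_or_pos e with rfl | hepos
  · simp
  have hpN : (p : ℤ) ∣ N := (dvd_pow_self _ (by omega)).trans hd
  have hpq' : (q : ZMod p) ≠ 0 := by
    rw [Ne, ZMod.natCast_eq_zero_iff]; exact hpq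
  have hacz : ∀ h : ZMod q, ac (fun x => (f x : ZMod p)) h = ((ac f h : ℤ) : ZMod p) := by
    intro h; unfold ac; push_cast; rfl
  have hall : ∀ h : ZMod q, ac (fun x => (f x : ZMod p)) h = (c : ZMod p) := by
    intro h
    rw [hacz]
    by_cases hh : h = 0
    · rw [hh, h0]
      push_cast
      rw [(ZMod.intCast_zmod_eq_zero_iff_dvd N p).2 hpN, zero_add]
    · rw [hne h hh]
  have hconst := const_mod hpq' hj hself (fun x => (f x : ZMod p)) _ hall
  -- f = f 0 + p g
  have hdiv : ∀ x, (p : ℤ) ∣ f x - f 0 := by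
    intro x
    rw [← ZMod.intCast_zmod_eq_zero_iff_dvd]
    push_cast
    rw [hconst x 0, sub_self]
  choose g hg using hdiv
  have hfg : f = fun x => (p : ℤ) * g x + f 0 := by
    funext x
    linarith [hg x]
  set S : ℤ := ∑ x, g x with hS
  have hacf : ∀ h, ac f h = (p : ℤ) ^ 2 * ac g h + (2 * p * f 0 * S + q * f 0 ^ 2) := by
    intro h
    conv_lhs => rw [hfg]
    rw [ac_affine]; ring
  -- a nonzero element
  have : Nontrivial (ZMod q) := by
    have : Fact (1 < q) := ⟨by omega⟩
    infer_instance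
  obtain ⟨h1, hh1⟩ := exists_ne (0 : ZMod q)
  set c' : ℤ := ac g h1 with hc'
  have hp0 : (p : ℤ) ^ 2 ≠ 0 := by
    have := hp.pos
    positivity
  have hg_ne : ∀ h, h ≠ 0 → ac g h = c' := by
    intro h hh
    have e1 := hacf h
    have e2 := hacf h1
    rw [hne h hh] at e1
    rw [hne h1 hh1] at e2
    have : (p : ℤ) ^ 2 * ac g h = (p : ℤ) ^ 2 * c' := by linarith
    exact mul_left_cancel₀ hp0 this
  have hN : N = (p : ℤ) ^ 2 * (ac g 0 - c') := by
    have e1 := hacf 0
    have e2 := hacf h1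
    rw [h0] at e1
    rw [hne h1 hh1] at e2
    rw [hc']
    linear_combination e1 - e2
  -- descend
  have hpz : (p : ℤ) ≠ 0 := by exact_mod_cast hp.ne_zero
  have he2 : 2 ≤ e := by
    by_contra hlt
    have : e = 1 := by omega
    subst this
    exact hnd (by rw [hN]; exact Dvd.intro _ rfl)
  obtain ⟨e', rfl⟩ := Nat.exists_eq_add_of_le he2
  have key := ih e' (by omega) g (ac g 0 - c') c' (by ring) hg_ne
    (by
      rw [hN, pow_add] at hd
      exact (mul_dvd_mul_iff_left hp0).1 hd)
    (by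
      intro hcon
      apply hnd
      rw [hN, show 2 + e' + 1 = 2 + (e' + 1) by ring, pow_add]
      exact mul_dvd_mul_left _ hcon)
  rcases key with ⟨t, ht⟩
  exact ⟨t + 1, by omega⟩

end Pool.Agent.H74R2.PPC
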