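import Mathlib

/-!
A finite nilpotent group has a normal subgroup of index `q` for every prime divisor `q` of its
order.
-/

namespace Pool.Agent.H74R2.PPC

lemma pgroup_index {P : Type*} [Group P] [Finite P] {q : ℕ} [Fact q.Prime] (h : IsPGroup q P)
    [Nontrivial P] : ∃ K : Subgroup P, K.Normal ∧ K.index = q := by
  obtain ⟨n, hn⟩ := IsPGroup.iff_card.1 h
  have hn0 : n ≠ 0 := by
    rintro rfl
    rw [pow_zero] at hn
    have := (Finite.one_lt_card_iff_nontrivial (α := P)).2 inferInstance
    omega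
  obtain ⟨k, rfl⟩ := Nat.exists_eq_succ_of_ne_zero hn0
  obtain ⟨K, hK⟩ := Sylow.exists_subgroup_card_pow_prime (G := P) q (n := k)
    (by rw [hn]; exact pow_dvd_pow q (Nat.le_succ k))
  have hidx : K.index = q := by
    have h1 := K.card_mul_index
    rw [hK, hn, Nat.succ_eq_add_one, pow_succ] at h1
    exact Nat.eq_of_mul_eq_mul_left (pow_pos (Fact.out : q.Prime).pos k) h1
  refine ⟨K, ?_, hidx⟩
  apply Subgroup.normal_of_index_eq_minFac_card
  rw [hidx, hn, Nat.Prime.pow_minFac Fact.out (Nat.succ_ne_zero k)]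

theorem nilpotent_index {G : Type*} [Group G] [Finite G] (hG : Group.IsNilpotent G) {q : ℕ}
    (hq : q.Prime) (hd : q ∣ Nat.card G) : ∃ K : Subgroup G, K.Normal ∧ K.index = q := by
  have : Fact q.Prime := ⟨hq⟩
  obtain ⟨e⟩ := ((isNilpotent_of_finite_tfae (G := G)).out 0 4).1 hG
  have hmem : q ∈ (Nat.card G).primeFactors := by
    rw [Nat.mem_primeFactors]; exact ⟨hq, hd, Nat.card_pos.ne'⟩
  let P : Sylow q G := default
  let f0 : (∀ p : (Nat.card G).primeFactors, ∀ P : Sylow p G, (↑P : Subgroup G)) →* (P : Subgroup G) :=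
    { toFun := fun x => x ⟨q, hmem⟩ P
      map_one' := rfl
      map_mul' := fun _ _ => rfl }
  have hf0 : Function.Surjective f0 := by
    classical
    intro y
    refine ⟨fun p Q => if h : p = ⟨q, hmem⟩ then ?_ else 1, ?_⟩
    · subst h
      exact if h2 : Q = P then h2 ▸ y else 1
    · simp [f0]
  let f : G →* (P : Subgroup G) := f0.comp e.symm.toMonoidHom
  have hf : Function.Surjective f := hf0.comp e.symm.surjective
  have hnt : Nontrivial (P : Subgroup G) := by
    rw [← Finite.one_lt_card_iff_nontrivial, Sylow.card_eq_multiplicity]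
    apply Nat.one_lt_pow _ hq.one_lt
    rw [← Nat.pos_iff_ne_zero]
    exact hq.factorization_pos_of_dvd Nat.card_pos.ne' hd
  obtain ⟨K, hK, hKi⟩ := pgroup_index (P := (P : Subgroup G)) (q := q) P.isPGroup'
  refine ⟨K.comap f, hK.comap f, ?_⟩
  rw [Subgroup.index_comap_of_surjective K hf, hKi]

end Pool.Agent.H74R2.PPC
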