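import Mathlib
import Pool.Agent.H74R2.PPC.Grp
import Pool.Agent.H74R2.PPC.Dens
import Pool.Agent.H74R2.PPC.Nil

/-!
MP_79499b_co: the prime power conjecture for difference sets with Singer parameters holds for
almost all orders `n`, for every odd `m` and all nilpotent (in particular all abelian) groups.
-/

namespace Pool.Agent.H74R2.PPC.Odd

open Finset Filter Topology

/-- `D` is a difference set in the finite group `G` with the Singer parameters
`v = (n^m-1)/(n-1)`, `k = (n^(m-1)-1)/(n-1)`, `lambda = (n^(m-2)-1)/(n-1)` (written without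
division exactly as in the frozen statement). -/
def IsSinger (n m : ℕ) {G : Type} [Group G] [Fintype G] [DecidableEq G] (D : Finset G) : Prop :=
  Fintype.card G * (n - 1) = n ^ m - 1 ∧
  D.card * (n - 1) = n ^ (m - 1) - 1 ∧
  ∀ g : G, g ≠ 1 →
    ((D ×ˢ D).filter (fun p : G × G => p.1 * p.2⁻¹ = g)).card * (n - 1) = n ^ (m - 2) - 1

/-- `A` has natural density one. -/
def DensityOne (A : Set ℕ) : Prop :=
  Tendsto (fun N : ℕ => ((A ∩ Set.Iio N).ncard : ℝ) / N) atTop (𝓝 1)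

/-- There is a prime divisor `q` of `(n^ℓ-1)/(n-1)` such that, for every odd multiple `m` of `ℓ`,
no finite group with a normal subgroup of index `q` contains a difference set with the Singer
parameters for `n` and `m`. -/
def Excluded (ℓ n : ℕ) : Prop :=
  ∃ q : ℕ, q.Prime ∧ q ∣ (n ^ ℓ - 1) / (n - 1) ∧
    ∀ m : ℕ, Odd m → ℓ ∣ m →
      ∀ (G : Type) [Group G] [Fintype G] [DecidableEq G],
        (∃ K : Subgroup G, K.Normal ∧ K.index = q) → ∀ D : Finset G, ¬ IsSinger n m D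

open Pool.Agent.H74R2.PPC

lemma index_hom {G : Type} [Group G] {q : ℕ} (hq : q.Prime) (K : Subgroup G) (hK : K.Normal)
    (hi : K.index = q) : ∃ φ : G →* Multiplicative (ZMod q), Function.Surjective φ := by
  have : Fact q.Prime := ⟨hq⟩
  have h1 : Nat.card (G ⧸ K) = q := hi
  have h2 : Nat.card (Multiplicative (ZMod q)) = q := by
    rw [Nat.card_congr Multiplicative.toAdd, Nat.card_zmod]
  let e := mulEquivOfPrimeCardEq h1 h2
  refine ⟨e.toMonoidHom.comp (QuotientGroup.mk' K), ?_⟩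
  exact e.surjective.comp (QuotientGroup.mk'_surjective K)

lemma no_singer {n m p q : ℕ} (hm3 : 3 ≤ m) (hm : Odd m) (hp : p.Prime) (hq : q.Prime)
    (hpq : p ≠ q) (hpn : p ∣ n) (hpn2 : ¬ p ^ 2 ∣ n)
    (hself : ((p ^ (q / 2) : ℕ) : ZMod q) = -1)
    {G : Type} [Group G] [Fintype G] [DecidableEq G]
    (hK : ∃ K : Subgroup G, K.Normal ∧ K.index = q) (D : Finset G) : ¬ IsSinger n m D := by
  rintro ⟨hcard, hD, hdiff⟩
  obtain ⟨K, hKn, hKi⟩ := hK
  obtain ⟨φ, hφ⟩ := index_hom hq K hKn hKi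
  have hn0 : n ≠ 0 := by rintro rfl; exact hpn2 (dvd_zero _)
  have hn2 : 2 ≤ n := hp.two_le.trans (Nat.le_of_dvd (Nat.pos_of_ne_zero hn0) hpn)
  have hn1 : 0 < n - 1 := by omega
  -- a nonidentity element
  have : Fact (1 < q) := ⟨hq.one_lt⟩
  obtain ⟨g0, hg0⟩ := hφ (Multiplicative.ofAdd (1 : ZMod q))
  have hg01 : g0 ≠ 1 := by
    rintro rfl
    rw [map_one] at hg0
    have : (0 : ZMod q) = 1 := by simpa using congrArg Multiplicative.toAdd hg0
    exact zero_ne_one this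
  set lam := ((D ×ˢ D).filter (fun p : G × G => p.1 * p.2⁻¹ = g0)).card with hlam
  have hlam1 : lam * (n - 1) = n ^ (m - 2) - 1 := hdiff g0 hg01
  have hIs : IsDiffSet D lam := by
    intro g hg
    have := hdiff g hg
    rw [← hlam1] at this
    exact Nat.eq_of_mul_eq_mul_right hn1 this
  have hkl : (#D : ℤ) - lam = (n : ℤ) ^ (m - 2) := by
    have h1 : (#D : ℤ) * ((n : ℤ) - 1) = (n : ℤ) ^ (m - 1) - 1 := by
      have hpow : 1 ≤ n ^ (m - 1) := Nat.one_le_pow _ _ (by omega)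
      have := congrArg (Nat.cast : ℕ → ℤ) hD
      rw [Nat.cast_mul, Nat.cast_sub (by omega), Nat.cast_sub hpow] at this
      push_cast at this
      exact this
    have h2 : (lam : ℤ) * ((n : ℤ) - 1) = (n : ℤ) ^ (m - 2) - 1 := by
      have hpow : 1 ≤ n ^ (m - 2) := Nat.one_le_pow _ _ (by omega)
      have := congrArg (Nat.cast : ℕ → ℤ) hlam1
      rw [Nat.cast_mul, Nat.cast_sub (by omega), Nat.cast_sub hpow] at this
      push_cast at this
      exact this
    have h3 : ((#D : ℤ) - lam) * ((n : ℤ) - 1) = (n : ℤ) ^ (m - 2) * ((n : ℤ) - 1) := by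
      have : (n : ℤ) ^ (m - 1) = (n : ℤ) ^ (m - 2) * n := by
        rw [← pow_succ]; congr 1; omega
      rw [this] at h1
      linear_combination h1 - h2
    have hne : (n : ℤ) - 1 ≠ 0 := by
      have : (2 : ℤ) ≤ n := by exact_mod_cast hn2
      omega
    exact mul_right_cancel₀ hne h3
  have hj : 1 ≤ q / 2 := by have := hq.two_le; omega
  have hev := diffset_mann D lam hIs hq hp hpq φ hφ hj hself (m - 2)
    (by rw [hkl]; exact pow_dvd_pow_of_dvd (by exact_mod_cast hpn) _)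
    (by
      rw [hkl]
      intro hcon
      obtain ⟨t, rfl⟩ := hpn
      have hpt : ¬ p ∣ t := by
        intro h; apply hpn2; rw [pow_two]; exact Nat.mul_dvd_mul_left p h
      have hcon' : p ^ (m - 2 + 1) ∣ (p * t) ^ (m - 2) := by exact_mod_cast hcon
      rw [mul_pow, pow_succ] at hcon'
      have h4 := Nat.dvd_of_mul_dvd_mul_left (pow_pos hp.pos (m - 2)) hcon'
      exact hpt (hp.dvd_of_dvd_pow h4))
  rcases hm with ⟨a, ha⟩
  rcases hev with ⟨b, hb⟩
  omega

lemma root_exists {ℓ q : ℕ} (hℓ : 3 ≤ ℓ) (hq : q.Prime) (h1 : (q : ZMod ℓ) = 1) :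
    ∃ r : ℕ, (r : ZMod q) ^ ℓ = 1 ∧ (r : ZMod q) ≠ 1 := by
  have : Fact q.Prime := ⟨hq⟩
  have hdvd : ℓ ∣ q - 1 := by
    rw [← ZMod.natCast_eq_zero_iff, Nat.cast_sub hq.one_lt.le, h1]; simp
  obtain ⟨k, hk⟩ := hdvd
  obtain ⟨g, hg⟩ := IsCyclic.exists_ofOrder_eq_natCard (α := (ZMod q)ˣ)
  have hcard : Nat.card (ZMod q)ˣ = q - 1 := by
    rw [Nat.card_eq_fintype_card, ZMod.card_units]
  have hq2 := hq.two_le
  have hkpos : 0 < k := by
    rcases Nat.eq_zero_or_pos k with h | h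
    · rw [h, mul_zero] at hk; omega
    · exact h
  refine ⟨((g ^ k : (ZMod q)ˣ) : ZMod q).val, ?_, ?_⟩
  · rw [ZMod.natCast_zmod_val, ← Units.val_pow_eq_pow_val, ← pow_mul, mul_comm k ℓ, ← hk, ← hcard,
      ← hg, pow_orderOf_eq_one, Units.val_one]
  · rw [ZMod.natCast_zmod_val]
    intro h
    have h2 : g ^ k = 1 := Units.ext h
    have h3 := orderOf_dvd_of_pow_eq_one h2
    rw [hg, hcard, hk] at h3
    have := Nat.le_of_dvd hkpos h3
    nlinarith

lemma densityOne_of_zero {A : Set ℕ} (h : DensityZero Aᶜ) : DensityOne A := by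
  unfold DensityOne
  rw [Metric.tendsto_atTop]
  intro ε hε
  obtain ⟨N0, hN0⟩ := h (ε / 2) (by positivity)
  refine ⟨max N0 1, fun N hN => ?_⟩
  have hN1 : N0 ≤ N := le_trans (le_max_left _ _) hN
  have hN2 : 1 ≤ N := le_trans (le_max_right _ _) hN
  have hfin : (Set.Iio N).Finite := Set.finite_Iio N
  have hsum : ((A ∩ Set.Iio N).ncard : ℝ) + ((Aᶜ ∩ Set.Iio N).ncard : ℝ) = N := by
    have h1 := Set.ncard_union_eq (s := A ∩ Set.Iio N) (t := Aᶜ ∩ Set.Iio N)
      (by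
        rw [Set.disjoint_left]
        rintro x ⟨hx1, _⟩ ⟨hx2, _⟩
        exact hx2 hx1)
      (hfin.subset Set.inter_subset_right) (hfin.subset Set.inter_subset_right)
    rw [← Set.union_inter_distrib_right, Set.union_compl_self, Set.univ_inter] at h1
    have h2 : (Set.Iio N).ncard = N := by
      rw [← Finset.coe_range, Set.ncard_coe_finset, Finset.card_range]
    rw [h2] at h1
    exact_mod_cast h1.symm
  have hNr : (0 : ℝ) < N := by exact_mod_cast hN2
  have hb := hN0 N hN1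
  rw [Real.dist_eq, abs_lt]
  have hle : (0 : ℝ) ≤ ((Aᶜ ∩ Set.Iio N).ncard : ℝ) := by positivity
  have heq : ((A ∩ Set.Iio N).ncard : ℝ) / N - 1 = - (((Aᶜ ∩ Set.Iio N).ncard : ℝ) / N) := by
    field_simp
    linarith
  rw [heq]
  have h5 : ((Aᶜ ∩ Set.Iio N).ncard : ℝ) / N ≤ ε / 2 := by
    rw [div_le_iff₀ hNr]; exact hb
  have h6 : 0 ≤ ((Aᶜ ∩ Set.Iio N).ncard : ℝ) / N := by positivity
  constructor <;> linarith

theorem excluded_zero (ℓ : ℕ) (hℓ : 3 ≤ ℓ) : DensityZero {n : ℕ | Excluded ℓ n}ᶜ := by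
  classical
  have : NeZero ℓ := ⟨by omega⟩
  have hex : ∀ q : ℕ, ∃ r : ℕ, q.Prime → (q : ZMod ℓ) = 1 →
      (r : ZMod q) ^ ℓ = 1 ∧ (r : ZMod q) ≠ 1 := by
    intro q
    by_cases h : q.Prime ∧ (q : ZMod ℓ) = 1
    · obtain ⟨r, hr⟩ := root_exists hℓ h.1 h.2
      exact ⟨r, fun _ _ => hr⟩
    · exact ⟨0, fun h1 h2 => absurd ⟨h1, h2⟩ h⟩
  choose r hr using hex
  have hodd : ∀ q : ℕ, q.Prime → (q : ZMod ℓ) = 1 → q ≠ 2 := by
    rintro q hq h1 rfl
    have hd : ℓ ∣ 2 - 1 := by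
      rw [← ZMod.natCast_eq_zero_iff, Nat.cast_sub (by norm_num), h1]; simp
    have := Nat.le_of_dvd (by norm_num) hd
    omega
  refine (almost_all (fun q => (q : ZMod ℓ) = 1) (divRecip_class isUnit_one) hodd r).mono ?_
  intro n hn
  simp only [Set.mem_compl_iff, Set.mem_ofPred_eq] at hn ⊢
  rintro ⟨q, hq, hq1, hnr, p, hp, hpq, hpn, hpn2, hself⟩
  apply hn
  refine ⟨q, hq, ?_, ?_⟩
  · obtain ⟨h1, h2⟩ := hr q hq hq1
    rw [← hnr] at h1 h2
    have hn0 : n ≠ 0 := by rintro rfl; exact hpn2 (dvd_zero _)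
    have hn2 : 2 ≤ n := hp.two_le.trans (Nat.le_of_dvd (Nat.pos_of_ne_zero hn0) hpn)
    have hdiv : (n - 1) ∣ n ^ ℓ - 1 := Nat.sub_one_dvd_pow_sub_one n ℓ
    obtain ⟨t, ht⟩ := hdiv
    rw [ht, Nat.mul_div_cancel_left t (by omega : 0 < n - 1)]
    have hq3 : q ∣ n ^ ℓ - 1 := by
      rw [← ZMod.natCast_eq_zero_iff, Nat.cast_sub (Nat.one_le_pow _ _ (by omega))]
      push_cast
      rw [h1, sub_self]
    have hq4 : ¬ q ∣ n - 1 := by
      intro h
      rw [← ZMod.natCast_eq_zero_iff, Nat.cast_sub (by omega)] at h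
      push_cast at h
      exact h2 (sub_eq_zero.1 h)
    rw [ht] at hq3
    exact (hq.dvd_mul.1 hq3).resolve_left hq4
  · intro m hm hlm G _ _ _ hK D
    have hm0 : m ≠ 0 := by rintro rfl; simp at hm
    have hm3 : 3 ≤ m := hℓ.trans (Nat.le_of_dvd (Nat.pos_of_ne_zero hm0) hlm)
    exact no_singer hm3 hm hp hq hpq hpn hpn2 hself hK D

/-- Let `ℓ ≥ 3`. The set of `n` with `Excluded ℓ n` has natural density one. Hence for almost
all `n` there is, for all odd multiples `m` of `ℓ` simultaneously, no difference set with the Singer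
parameters for `n` and `m` in a nilpotent (in particular abelian) group. -/
theorem result (ℓ : ℕ) (hℓ : 3 ≤ ℓ) :
    DensityOne {n : ℕ | Excluded ℓ n} ∧
    DensityOne {n : ℕ | ∀ m : ℕ, Odd m → ℓ ∣ m →
      ∀ (G : Type) [Group G] [Fintype G] [DecidableEq G], Group.IsNilpotent G →
        ∀ D : Finset G, ¬ IsSinger n m D} := by
  refine ⟨densityOne_of_zero (excluded_zero ℓ hℓ), densityOne_of_zero ?_⟩
  refine (excluded_zero ℓ hℓ).mono ?_
  rw [Set.compl_subset_compl]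
  rintro n ⟨q, hq, hqd, h⟩
  simp only [Set.mem_ofPred_eq]
  intro m hm hlm G _ _ _ hG D hD
  refine h m hm hlm G (nilpotent_index hG hq ?_) D hD
  rw [Nat.card_eq_fintype_card]
  have hcard := hD.1
  have hcpos : 0 < Fintype.card G := Fintype.card_pos
  have hm0 : m ≠ 0 := by rintro rfl; simp at hm
  -- `n ≥ 2`, otherwise `(n ^ ℓ - 1) / (n - 1) = 0` and ...
  rcases Nat.lt_or_ge n 2 with hn | hn
  · exfalso
    obtain ⟨K, hK, hKi⟩ : ∃ K : Subgroup (Multiplicative (ZMod q)), K.Normal ∧ K.index = q := by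
      refine ⟨⊥, inferInstance, ?_⟩
      rw [Subgroup.index_bot, Nat.card_congr Multiplicative.toAdd, Nat.card_zmod]
    have : Fact q.Prime := ⟨hq⟩
    have : Fintype (Multiplicative (ZMod q)) := Fintype.ofFinite _
    have hn1 : n - 1 = 0 := by omega
    have hpow : ∀ a : ℕ, n ^ a - 1 = 0 := by
      intro a
      have : n ^ a ≤ 1 := by
        calc n ^ a ≤ 1 ^ a := Nat.pow_le_pow_left (by omega) a
          _ = 1 := one_pow a
      omega
    refine h m hm hlm (Multiplicative (ZMod q)) ⟨K, hK, hKi⟩ ∅ ⟨?_, ?_, ?_⟩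
    · rw [hn1, hpow, mul_zero]
    · rw [hn1, hpow, mul_zero]
    · intro g _; rw [hn1, hpow, mul_zero]
  · obtain ⟨t, ht⟩ := Nat.sub_one_dvd_pow_sub_one n ℓ
    obtain ⟨k, rfl⟩ := hlm
    obtain ⟨s, hs⟩ := Nat.sub_one_dvd_pow_sub_one (n ^ ℓ) k
    rw [← pow_mul, ht] at hs
    rw [ht, Nat.mul_div_cancel_left t (by omega : 0 < n - 1)] at hqd
    rw [hs, mul_comm, mul_assoc] at hcard
    have := Nat.eq_of_mul_eq_mul_left (by omega : 0 < n - 1) hcard
    rw [this]
    exact hqd.mul_right s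

end Pool.Agent.H74R2.PPC.Odd
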