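import Mathlib
import Pool.Agent.H74R2.PPC.Nil

/-!
Let `G` be a finite solvable group, `r` a prime dividing its order and `r ^ (a + 1)` not dividing
its order. Then `G` has a normal subgroup of prime index at most `r ^ a`.
-/

namespace Pool.Agent.H74R2.PPC

open scoped commutatorElement

/-- a nontrivial finite solvable group has a normal subgroup of prime index. -/
lemma solvable_prime_index {G : Type*} [Group G] [Finite G] (hG : Group.IsSolvable G) [Nontrivial G] :
    ∃ s : ℕ, s.Prime ∧ ∃ K : Subgroup G, K.Normal ∧ K.index = s := by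
  have := hG
  have h1 : commutator G < ⊤ := Group.IsSolvable.commutator_lt_top_of_nontrivial G
  have h2 : Nontrivial (G ⧸ commutator G) := by
    rw [QuotientGroup.nontrivial_iff]
    exact h1.ne
  have h3 : Nontrivial (Abelianization G) := h2
  have hcard : 1 < Nat.card (Abelianization G) := Finite.one_lt_card
  have hs := Nat.minFac_prime hcard.ne'
  obtain ⟨K, hK, hKi⟩ := nilpotent_index (G := Abelianization G) inferInstance hs
    (Nat.minFac_dvd _)
  refine ⟨_, hs, K.comap Abelianization.of, hK.comap _, ?_⟩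
  rw [Subgroup.index_comap_of_surjective K, hKi]
  exact QuotientGroup.mk'_surjective _

/-- a nontrivial finite solvable group has a nontrivial normal commutative subgroup. -/
lemma solvable_normal_comm {G : Type*} [Group G] (hG : Group.IsSolvable G) [Nontrivial G] :
    ∃ A : Subgroup G, A.Normal ∧ A ≠ ⊥ ∧ ∀ x ∈ A, ∀ y ∈ A, x * y = y * x := by
  classical
  have hex : ∃ n, derivedSeries G n = ⊥ := hG.solvable
  set k := Nat.find hex with hk
  have hk0 : k ≠ 0 := by
    intro h0
    have h1 := Nat.find_spec hex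
    rw [← hk, h0] at h1
    rw [derivedSeries_zero] at h1
    exact top_ne_bot h1
  obtain ⟨j, hj⟩ := Nat.exists_eq_succ_of_ne_zero hk0
  refine ⟨derivedSeries G j, derivedSeries_normal G j, Nat.find_min hex (by omega), ?_⟩
  intro x hx y hy
  have h1 := Nat.find_spec hex
  rw [← hk, hj, Nat.succ_eq_add_one, derivedSeries_succ] at h1
  have h2 : ⁅x, y⁆ ∈ (⊥ : Subgroup G) := by
    rw [← h1]
    exact Subgroup.commutator_mem_commutator hx hy
  rw [Subgroup.mem_bot, commutatorElement_eq_one_iff_mul_comm] at h2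
  exact h2

/-- a nontrivial finite solvable group has a nontrivial normal commutative `q`-subgroup. -/
lemma solvable_normal_pgroup {G : Type*} [Group G] [Finite G] (hG : Group.IsSolvable G) [Nontrivial G] :
    ∃ q : ℕ, q.Prime ∧ ∃ N : Subgroup G, N.Normal ∧ N ≠ ⊥ ∧ IsPGroup q N := by
  obtain ⟨A, hA, hA0, hAc⟩ := solvable_normal_comm hG
  have hnt : Nontrivial A := (Subgroup.nontrivial_iff_ne_bot A).2 hA0
  have hcard : 1 < Nat.card A := Finite.one_lt_card
  set q := (Nat.card A).minFac with hq
  have hqp : q.Prime := Nat.minFac_prime hcard.ne'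
  have : Fact q.Prime := ⟨hqp⟩
  let N : Subgroup G :=
    { carrier := {x | x ∈ A ∧ x ^ q = 1}
      one_mem' := ⟨A.one_mem, one_pow q⟩
      mul_mem' := by
        rintro x y ⟨hx, hx1⟩ ⟨hy, hy1⟩
        refine ⟨A.mul_mem hx hy, ?_⟩
        rw [Commute.mul_pow (hAc x hx y hy), hx1, hy1, one_mul]
      inv_mem' := by
        rintro x ⟨hx, hx1⟩
        exact ⟨A.inv_mem hx, by rw [inv_pow, hx1, inv_one]⟩ }
  have hNmem : ∀ x, x ∈ N ↔ x ∈ A ∧ x ^ q = 1 := fun x => Iff.rfl
  refine ⟨q, hqp, N, ⟨?_⟩, ?_, ?_⟩
  · intro x hx g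
    obtain ⟨h1, h2⟩ := (hNmem x).1 hx
    refine (hNmem _).2 ⟨hA.conj_mem x h1 g, ?_⟩
    rw [conj_pow, h2, mul_one, mul_inv_cancel]
  · obtain ⟨x, hx⟩ := exists_prime_orderOf_dvd_card' (G := A) q (Nat.minFac_dvd _)
    intro hbot
    have h1 : (x : G) ∈ N := by
      refine (hNmem _).2 ⟨x.2, ?_⟩
      have := pow_orderOf_eq_one x
      rw [hx] at this
      have h2 := congrArg Subtype.val this
      simpa using h2
    rw [hbot, Subgroup.mem_bot] at h1
    have h3 : x = 1 := Subtype.ext h1
    rw [h3, orderOf_one] at hx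
    exact hqp.one_lt.ne hx
  · intro x
    refine ⟨1, ?_⟩
    rw [pow_one]
    exact Subtype.ext ((hNmem _).1 x.2).2

/-- if `N` is a normal `r`-subgroup with trivial conjugation action and index coprime to `r`,
then `G` has a normal subgroup of index `r`. -/
lemma central_case {G : Type*} [Group G] [Finite G] {r : ℕ} (hr : r.Prime) (N : Subgroup G)
    (hN : N.Normal) (hN0 : N ≠ ⊥) (hp : IsPGroup r N)
    (hc : ∀ g : G, ∀ x ∈ N, g * x = x * g) (hi : ¬ r ∣ N.index) :
    ∃ K : Subgroup G, K.Normal ∧ K.index = r := by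
  have : Fact r.Prime := ⟨hr⟩
  have hnt : Nontrivial N := (Subgroup.nontrivial_iff_ne_bot N).2 hN0
  obtain ⟨k, hk⟩ := IsPGroup.iff_card.1 hp
  have hcop : Nat.Coprime (Nat.card N) N.index := by
    rw [hk]
    exact Nat.Coprime.pow_left k ((Nat.Prime.coprime_iff_not_dvd hr).2 hi)
  obtain ⟨H, hH⟩ := Subgroup.exists_right_complement'_of_coprime hcop
  have hHn : H.Normal := by
    refine ⟨fun h hh g => ?_⟩
    obtain ⟨⟨n, h'⟩, hnh⟩ := (hH.existsUnique g).exists
    simp only at hnh
    have hn := n.2
    have e1 : g * h * g⁻¹ = (h' : G) * h * (h' : G)⁻¹ := by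
      rw [← hnh]
      have e2 := hc ((h' : G) * h * (h' : G)⁻¹) n hn
      calc (n : G) * h' * h * ((n : G) * h')⁻¹ = (n : G) * ((h' : G) * h * (h' : G)⁻¹) * (n : G)⁻¹ := by group
        _ = ((h' : G) * h * (h' : G)⁻¹) * n * (n : G)⁻¹ := by rw [← e2]
        _ = _ := by group
    rw [e1]
    exact H.mul_mem (H.mul_mem h'.2 hh) (H.inv_mem h'.2)
  -- the projection to `N`
  have hHi : H.index = Nat.card N := hH.index_eq_card
  have hQ : Nat.card (G ⧸ H) = r ^ k := by
    rw [← Subgroup.index_eq_card, hHi, hk]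
  have hpQ : IsPGroup r (G ⧸ H) := IsPGroup.of_card hQ
  have hntQ : Nontrivial (G ⧸ H) := by
    rw [← Finite.one_lt_card_iff_nontrivial, hQ, ← hk]
    exact Finite.one_lt_card
  obtain ⟨K, hK, hKi⟩ := pgroup_index hpQ
  refine ⟨K.comap (QuotientGroup.mk' H), hK.comap _, ?_⟩
  rw [Subgroup.index_comap_of_surjective K (QuotientGroup.mk'_surjective H), hKi]

theorem solvable_index_aux (r a : ℕ) (hr : r.Prime) (ha : 1 ≤ a) : ∀ (c : ℕ) (G : Type) [Group G]
    [Finite G], Group.IsSolvable G → Nat.card G = c → r ∣ Nat.card G → ¬ r ^ (a + 1) ∣ Nat.card G →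
    ∃ s : ℕ, s.Prime ∧ s ≤ r ^ a ∧ ∃ K : Subgroup G, K.Normal ∧ K.index = s := by
  intro c
  induction c using Nat.strong_induction_on with
  | _ c ih =>
  intro G _ _ hG hc h1 h2
  have := hG
  have hnt : Nontrivial G := by
    rw [← Finite.one_lt_card_iff_nontrivial]
    exact lt_of_lt_of_le hr.one_lt (Nat.le_of_dvd Nat.card_pos h1)
  obtain ⟨q, hq, N, hN, hN0, hp⟩ := solvable_normal_pgroup hG
  have : Fact q.Prime := ⟨hq⟩
  have hNnt : Nontrivial N := (Subgroup.nontrivial_iff_ne_bot N).2 hN0
  obtain ⟨k, hk⟩ := IsPGroup.iff_card.1 hp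
  have hN1 : 1 < Nat.card N := Finite.one_lt_card
  have hmul : Nat.card N * N.index = Nat.card G := N.card_mul_index
  -- the reduction to the quotient
  have hquot : r ∣ N.index → ∃ s : ℕ, s.Prime ∧ s ≤ r ^ a ∧
      ∃ K : Subgroup G, K.Normal ∧ K.index = s := by
    intro hd
    have hci : Nat.card (G ⧸ N) = N.index := (Subgroup.index_eq_card N).symm
    have hlt : N.index < c := by
      rw [← hc, ← hmul]
      have : 0 < N.index := Nat.pos_of_ne_zero Subgroup.index_ne_zero_of_finite
      nlinarith
    obtain ⟨s, hs, hsr, K, hK, hKi⟩ := ih N.index hlt (G ⧸ N) inferInstance hci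
      (by rw [hci]; exact hd)
      (by
        rw [hci]
        intro h3
        exact h2 (h3.trans ⟨Nat.card N, by rw [mul_comm]; exact hmul.symm⟩))
    refine ⟨s, hs, hsr, K.comap (QuotientGroup.mk' N), hK.comap _, ?_⟩
    rw [Subgroup.index_comap_of_surjective K (QuotientGroup.mk'_surjective N), hKi]
  by_cases hqr : q = r
  · subst hqr
    -- the action
    by_cases hact : ∀ g : G, (MulAut.conjNormal g : MulAut N) = 1
    · by_cases hd : q ∣ N.index
      · exact hquot hd
      · obtain ⟨K, hK, hKi⟩ := central_case hr N hN hN0 hp (by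
          intro g x hx
          have h3 := congrArg (fun f : MulAut N => ((f ⟨x, hx⟩ : N) : G)) (hact g)
          simp only [MulAut.conjNormal_apply, MulAut.one_apply] at h3
          rw [mul_inv_eq_iff_eq_mul] at h3
          exact h3) hd
        refine ⟨q, hq, ?_, K, hK, hKi⟩
        exact Nat.le_self_pow (by omega) q
    · push Not at hact
      obtain ⟨g, hg⟩ := hact
      set θ : G →* MulAut N := MulAut.conjNormal with hθ
      have hrn : Nontrivial θ.range := by
        rw [Subgroup.nontrivial_iff_ne_bot]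
        intro hbot
        apply hg
        have : θ g ∈ θ.range := ⟨g, rfl⟩
        rw [hbot, Subgroup.mem_bot] at this
        exact this
      have hsol : Group.IsSolvable θ.range := Group.isSolvable_of_surjective θ.rangeRestrict_surjective
      have hfin : Finite θ.range := Finite.of_surjective _ θ.rangeRestrict_surjective
      obtain ⟨s, hs, K, hK, hKi⟩ := solvable_prime_index hsol
      refine ⟨s, hs, ?_, K.comap θ.rangeRestrict, hK.comap _, ?_⟩
      · -- `s` divides `|N|!`
        have hd1 : s ∣ Nat.card θ.range := by rw [← hKi]; exact K.index_dvd_card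
        have hinj : Function.Injective (MulAut.toPerm N) := by
          intro f f' hff
          ext x
          have := congrArg (fun e : Equiv.Perm N => e x) hff
          exact congrArg Subtype.val this
        have hd2 : Nat.card θ.range ∣ Nat.card (Equiv.Perm N) :=
          Subgroup.card_dvd_of_injective ((MulAut.toPerm N).comp θ.range.subtype)
            (hinj.comp Subtype.val_injective)
        rw [Nat.card_perm] at hd2
        have h4 : s ≤ Nat.card N := (Nat.Prime.dvd_factorial hs).1 (hd1.trans hd2)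
        have h5 : k ≤ a := by
          by_contra hcon
          apply h2
          rw [← hmul, hk]
          exact Dvd.dvd.mul_right (pow_dvd_pow q (by omega)) _
        rw [hk] at h4
        exact h4.trans (Nat.pow_le_pow_right hq.pos h5)
      · rw [Subgroup.index_comap_of_surjective K θ.rangeRestrict_surjective, hKi]
  · apply hquot
    rw [← hmul] at h1
    rcases hr.dvd_mul.1 h1 with h3 | h3
    · exfalso
      rw [hk] at h3
      exact hqr ((Nat.prime_dvd_prime_iff_eq hr hq).1 (hr.dvd_of_dvd_pow h3)).symm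
    · exact h3

/-- A finite solvable group whose order is divisible by the prime `r` but not by `r ^ (a + 1)` has a
normal subgroup of prime index at most `r ^ a`. -/
theorem solvable_index {r a : ℕ} (hr : r.Prime) (ha : 1 ≤ a) {G : Type} [Group G] [Finite G]
    (hG : Group.IsSolvable G) (h1 : r ∣ Nat.card G) (h2 : ¬ r ^ (a + 1) ∣ Nat.card G) :
    ∃ s : ℕ, s.Prime ∧ s ≤ r ^ a ∧ ∃ K : Subgroup G, K.Normal ∧ K.index = s :=
  solvable_index_aux r a hr ha _ G hG rfl h1 h2

end Pool.Agent.H74R2.PPC
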