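import Mathlib
import Pool.Agent.H74R2.PPC.Dens

/-!
Residue classes mod `r ^ 2` in which `1 + n + ... + n ^ (l - 1)` is exactly divisible by `r`.
-/

namespace Pool.Agent.H74R2.PPC

open Finset

/-- `1 + n + ... + n ^ (l - 1)`. -/
def V (l n : ℕ) : ℕ := ∑ i ∈ range l, n ^ i

lemma V_modEq {l n m M : ℕ} (h : n ≡ m [MOD M]) : V l n ≡ V l m [MOD M] := by
  rw [← ZMod.natCast_eq_natCast_iff] at h ⊢
  unfold V
  push_cast
  rw [h]

/-- the residues mod `r ^ 2` where `V l` is not exactly divisible by `r`. -/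
def badV (l r : ℕ) : Finset (ZMod (r ^ 2)) :=
  if h : r ^ 2 = 0 then ∅ else
    haveI : NeZero (r ^ 2) := ⟨h⟩
    (univ : Finset (ZMod (r ^ 2))).filter fun x => ¬ (r ∣ V l x.val ∧ ¬ r ^ 2 ∣ V l x.val)

lemma mem_badV {l r : ℕ} (hr : r.Prime) (n : ℕ) :
    (n : ZMod (r ^ 2)) ∈ badV l r ↔ ¬ (r ∣ V l n ∧ ¬ r ^ 2 ∣ V l n) := by
  have h : r ^ 2 ≠ 0 := by have := hr.pos; positivity
  unfold badV
  rw [dif_neg h]
  simp only [mem_filter, mem_univ, true_and]
  have h1 : V l (n : ZMod (r ^ 2)).val ≡ V l n [MOD r ^ 2] := by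
    apply V_modEq
    rw [ZMod.val_natCast]
    exact Nat.mod_modEq _ _
  rw [h1.dvd_iff (dvd_pow_self r two_ne_zero), h1.dvd_iff (dvd_refl _)]

lemma one_add_pow_sq {R : Type*} [CommRing R] (x : R) (hx : x ^ 2 = 0) (l : ℕ) :
    (1 + x) ^ l = 1 + l * x := by
  induction l with
  | zero => simp
  | succ l ih =>
    rw [pow_succ, ih]
    push_cast
    linear_combination (l : R) * hx

/-- a root of unity mod `r ^ 2`. -/
lemma root_sq {l r ρ : ℕ} (hr : r.Prime) (h1 : (ρ : ZMod r) ^ l = 1) (h2 : (ρ : ZMod r) ≠ 1) :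
    ((ρ ^ r : ℕ) : ZMod (r ^ 2)) ^ l = 1 ∧ ((ρ ^ r : ℕ) : ZMod r) ≠ 1 := by
  have : Fact r.Prime := ⟨hr⟩
  constructor
  · have h3 : (r : ℤ) ∣ (ρ : ℤ) ^ l - 1 := by
      rw [← ZMod.intCast_zmod_eq_zero_iff_dvd]
      push_cast
      rw [h1, sub_self]
    obtain ⟨c, hc⟩ := h3
    have h4 : (ρ : ℤ) ^ l = 1 + r * c := by linarith
    have h5 : ((ρ : ZMod (r ^ 2))) ^ l = 1 + (r : ZMod (r ^ 2)) * (c : ZMod (r ^ 2)) := by
      have := congrArg (Int.cast : ℤ → ZMod (r ^ 2)) h4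
      push_cast at this
      exact this
    have hrr : (r : ZMod (r ^ 2)) ^ 2 = 0 := by
      have : ((r ^ 2 : ℕ) : ZMod (r ^ 2)) = 0 := ZMod.natCast_self _
      push_cast at this
      exact this
    push_cast
    rw [← pow_mul, mul_comm, pow_mul, h5, one_add_pow_sq _ (by rw [mul_pow, hrr, zero_mul])]
    linear_combination (c : ZMod (r ^ 2)) * hrr
  · push_cast
    rw [ZMod.pow_card]
    exact h2

lemma card_badV {l r ρ : ℕ} (hr : r.Prime) (hl : ¬ r ∣ l) (h1 : (ρ : ZMod r) ^ l = 1)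
    (h2 : (ρ : ZMod r) ≠ 1) (hr2 : 2 ≤ r) :
    (#(badV l r) : ℝ) ≤ (r ^ 2 : ℕ) * Real.exp (-(1 / (2 * r) : ℝ)) := by
  have h : r ^ 2 ≠ 0 := by have := hr.pos; positivity
  have hne : NeZero (r ^ 2) := ⟨h⟩
  have : Fact r.Prime := ⟨hr⟩
  obtain ⟨h3, h4⟩ := root_sq hr h1 h2
  set z0 : ℕ := ρ ^ r with hz0
  have hl0 : l ≠ 0 := by rintro rfl; exact hl (dvd_zero _)
  have hunit : IsUnit ((z0 : ℕ) : ZMod (r ^ 2)) :=
    IsUnit.of_pow_eq_one h3 hl0
  have hrr : (r : ZMod (r ^ 2)) ^ 2 = 0 := by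
    have : ((r ^ 2 : ℕ) : ZMod (r ^ 2)) = 0 := ZMod.natCast_self _
    push_cast at this
    exact this
  have hcan : ∀ a : ℕ, ((r * a : ℕ) : ZMod (r ^ 2)) = 0 → r ∣ a := by
    intro a ha
    rw [ZMod.natCast_eq_zero_iff, pow_two] at ha
    exact Nat.dvd_of_mul_dvd_mul_left hr.pos ha
  have hc1 : #(badV l r) + (r - 1) ≤ r ^ 2 := by
    have e2 : #(badV l r)ᶜ + #(badV l r) = r ^ 2 := by
      rw [Finset.card_compl_add_card, ZMod.card]
    have e3 : r - 1 ≤ #(badV l r)ᶜ := by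
      rw [← Nat.card_Icc 1 (r - 1) |>.trans (by omega : r - 1 + 1 - 1 = r - 1)]
      apply Finset.card_le_card_of_injOn (fun t => ((z0 * (1 + r * t) : ℕ) : ZMod (r ^ 2)))
      · intro t ht
        simp only [coe_Icc, Set.mem_Icc] at ht
        simp only [coe_compl, Set.mem_compl_iff, mem_coe]
        rw [mem_badV hr, not_not]
        constructor
        · rw [← ZMod.natCast_eq_zero_iff]
          have e5 : ((z0 * (1 + r * t) : ℕ) : ZMod r) = (z0 : ZMod r) := by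
            push_cast; rw [ZMod.natCast_self]; ring
          have e6 : (V l (z0 * (1 + r * t)) : ZMod r) = ∑ i ∈ range l, (z0 : ZMod r) ^ i := by
            unfold V
            rw [Nat.cast_sum]
            apply Finset.sum_congr rfl
            intro i _
            rw [Nat.cast_pow, e5]
          rw [e6]
          have e7 : ((z0 : ZMod r) - 1) * ∑ i ∈ range l, (z0 : ZMod r) ^ i = 0 := by
            rw [mul_geom_sum]
            have : (z0 : ZMod r) ^ l = 1 := by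
              rw [hz0]
              push_cast
              rw [ZMod.pow_card]; exact h1
            rw [this, sub_self]
          rcases mul_eq_zero.1 e7 with h8 | h8
          · exact absurd (sub_eq_zero.1 h8) h4
          · exact h8
        · intro hd
          rw [← ZMod.natCast_eq_zero_iff] at hd
          have e7 := mul_geom_sum ((z0 * (1 + r * t) : ℕ) : ZMod (r ^ 2)) l
          have e8 : ∑ i ∈ range l, ((z0 * (1 + r * t) : ℕ) : ZMod (r ^ 2)) ^ i = 0 := by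
            rw [← hd]; unfold V; push_cast; rfl
          rw [e8, mul_zero] at e7
          have e9 : ((z0 * (1 + r * t) : ℕ) : ZMod (r ^ 2)) ^ l = 1 + ((r * (l * t) : ℕ) : ZMod (r ^ 2)) := by
            rw [Nat.cast_mul, mul_pow, h3, one_mul]
            push_cast
            rw [one_add_pow_sq _ (by rw [mul_pow, hrr, zero_mul])]
            ring
          rw [e9, add_sub_cancel_left] at e7
          have e10 := hcan _ e7.symm
          rcases hr.dvd_mul.1 e10 with h8 | h8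
          · exact hl h8
          · have := Nat.le_of_dvd (by omega) h8
            omega
      · intro a ha b hb hab
        simp only [coe_Icc, Set.mem_Icc] at ha hb
        simp only at hab
        rw [Nat.cast_mul, Nat.cast_mul] at hab
        have e5 := hunit.mul_left_cancel hab
        rw [ZMod.natCast_eq_natCast_iff, Nat.ModEq, Nat.mod_eq_of_lt, Nat.mod_eq_of_lt] at e5
        · have : r * a = r * b := by omega
          exact Nat.eq_of_mul_eq_mul_left hr.pos this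
        · obtain ⟨c, hc⟩ : ∃ c, r = b + c := ⟨r - b, by omega⟩
          have : 1 ≤ c := by omega
          nlinarith
        · obtain ⟨c, hc⟩ : ∃ c, r = a + c := ⟨r - a, by omega⟩
          have : 1 ≤ c := by omega
          nlinarith
    omega
  have hp1 : (2 : ℝ) ≤ r := by exact_mod_cast hr.two_le
  have h4' : (#(badV l r) : ℝ) ≤ (r : ℝ) ^ 2 - (r - 1) := by
    have : ((#(badV l r) + (r - 1) : ℕ) : ℝ) ≤ ((r ^ 2 : ℕ) : ℝ) := by exact_mod_cast hc1
    rw [Nat.cast_add, Nat.cast_sub hr.one_lt.le] at this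
    push_cast at this
    linarith
  have h5 : (1 : ℝ) - 1 / (2 * r) ≤ Real.exp (-(1 / (2 * r) : ℝ)) := by
    have := Real.add_one_le_exp (-(1 / (2 * r) : ℝ))
    linarith
  have h6 : (r : ℝ) ^ 2 - (r - 1) ≤ (r : ℝ) ^ 2 * (1 - 1 / (2 * r)) := by
    have : (r : ℝ) ^ 2 * (1 - 1 / (2 * r)) = r ^ 2 - r / 2 := by
      field_simp
    rw [this]; linarith
  push_cast
  calc (#(badV l r) : ℝ) ≤ (r : ℝ) ^ 2 * (1 - 1 / (2 * r)) := h4'.trans h6
    _ ≤ _ := mul_le_mul_of_nonneg_left h5 (by positivity)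

/-- there is a prime exactly dividing `n` which is a quadratic nonresidue mod `r`. -/
def GoodFor (r n : ℕ) : Prop :=
  ∃ p : ℕ, p.Prime ∧ p ≠ r ∧ p ∣ n ∧ ¬ p ^ 2 ∣ n ∧ ((p ^ (r / 2) : ℕ) : ZMod r) = -1

/-- for a fixed odd prime `r`, almost all `n` are good. -/
theorem good_fixed {r : ℕ} (hr : r.Prime) (hr2 : r ≠ 2) : DensityZero {n : ℕ | ¬ GoodFor r n} := by
  classical
  intro ε hε
  have : Fact r.Prime := ⟨hr⟩
  have : NeZero r := ⟨hr.ne_zero⟩
  have hch : ringChar (ZMod r) ≠ 2 := by rw [ZMod.ringChar_zmod_n]; exact hr2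
  obtain ⟨a, ha⟩ := FiniteField.exists_nonsquare hch
  have ha0 : a ≠ 0 := by rintro rfl; exact ha (IsSquare.zero)
  have ha1 : a ^ (r / 2) = -1 := by
    rcases ZMod.pow_div_two_eq_neg_one_or_one r ha0 with h1 | h1
    · exact absurd ((ZMod.euler_criterion r ha0).2 h1) ha
    · exact h1
  obtain ⟨s, hs1, hs2⟩ := divRecip_class (q := r) (a := a) ha0.isUnit 0 (2 * Real.log (2 / ε))
  have hs3 : ∑ p ∈ s, (1 / (2 * p) : ℝ) = (∑ p ∈ s, (1 : ℝ) / p) / 2 := by
    rw [Finset.sum_div]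
    apply Finset.sum_congr rfl
    intro p _
    rw [div_div, mul_comm]
  have h1 := count_real s (fun p => p ^ 2)
    (fun p hp => by have := (hs1 p hp).1.pos; positivity)
    (fun i hi j hj hij => Nat.Coprime.pow 2 2
      ((Nat.coprime_primes (hs1 i hi).1 (hs1 j hj).1).2 hij))
    (fun p => notExact p) (fun p => (1 / (2 * p) : ℝ))
    (fun p hp => card_notExact (hs1 p hp).1)
  set C1 : ℝ := ∏ p ∈ s, (#(notExact p) : ℝ) with hC1
  have hC1n : 0 ≤ C1 := Finset.prod_nonneg fun _ _ => by positivity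
  obtain ⟨N0, hN0⟩ := exists_nat_ge (2 * C1 / ε)
  refine ⟨N0, fun N hN => ?_⟩
  have hNr : 2 * C1 / ε ≤ N := hN0.trans (by exact_mod_cast hN)
  have hsub : ({n : ℕ | ¬ GoodFor r n} ∩ Set.Iio N) ⊆
      (({n ∈ range N | ∀ p ∈ s, ((n : ℕ) : ZMod (p ^ 2)) ∈ notExact p} : Finset ℕ) : Set ℕ) := by
    rintro n ⟨hn1, hn2⟩
    simp only [Set.mem_ofPred_eq, Set.mem_Iio] at hn1 hn2
    rw [mem_coe, Finset.mem_filter, Finset.mem_range]
    refine ⟨hn2, fun p hp => ?_⟩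
    rw [mem_notExact (hs1 p hp).1]
    rintro ⟨h2, h3⟩
    apply hn1
    refine ⟨p, (hs1 p hp).1, ?_, h2, h3, ?_⟩
    · rintro rfl
      have h7 : ((p : ℕ) : ZMod p) = a := (hs1 p hp).2.1
      rw [ZMod.natCast_self] at h7
      exact ha0 h7.symm
    · push_cast
      rw [(hs1 p hp).2.1, ha1]
  have h2 := Set.ncard_le_ncard hsub (Finset.finite_toSet _)
  rw [Set.ncard_coe_finset] at h2
  have h3 : (({n : ℕ | ¬ GoodFor r n} ∩ Set.Iio N).ncard : ℝ)
      ≤ #{n ∈ range N | ∀ p ∈ s, ((n : ℕ) : ZMod (p ^ 2)) ∈ notExact p} := by exact_mod_cast h2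
  refine h3.trans ((h1 N).trans ?_)
  have h4 : Real.exp (-∑ p ∈ s, (1 / (2 * p) : ℝ)) ≤ ε / 2 := by
    calc Real.exp (-∑ p ∈ s, (1 / (2 * p) : ℝ)) ≤ Real.exp (-Real.log (2 / ε)) :=
          Real.exp_le_exp.2 (by linarith)
      _ = ε / 2 := by rw [Real.exp_neg, Real.exp_log (by positivity), inv_div]
  have h5 : (N : ℝ) * Real.exp (-∑ p ∈ s, (1 / (2 * p) : ℝ)) ≤ ε / 2 * N := by
    rw [mul_comm]; exact mul_le_mul_of_nonneg_right h4 (by positivity)
  have h6 : C1 ≤ ε / 2 * N := by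
    rw [div_le_iff₀ hε] at hNr; linarith
  linarith

/-- for almost all `n` (up to density `ε`) some prime `r` in a fixed finite set of primes larger
than `B` exactly divides `V l n`. -/
theorem many {l : ℕ} (hl : 3 ≤ l) (B : ℕ)
    (hroot : ∀ r : ℕ, r.Prime → (r : ZMod l) = 1 → ∃ ρ : ℕ, (ρ : ZMod r) ^ l = 1 ∧ (ρ : ZMod r) ≠ 1)
    (ε : ℝ) (hε : 0 < ε) :
    ∃ Q : Finset ℕ, (∀ r ∈ Q, r.Prime ∧ B < r) ∧ ∃ N0 : ℕ, ∀ N : ℕ, N0 ≤ N →
      (({n : ℕ | ∀ r ∈ Q, ¬ (r ∣ V l n ∧ ¬ r ^ 2 ∣ V l n)} ∩ Set.Iio N).ncard : ℝ) ≤ ε * N := by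
  classical
  have : NeZero l := ⟨by omega⟩
  obtain ⟨s, hs1, hs2⟩ := divRecip_class (q := l) (a := 1) isUnit_one (max B l) (2 * Real.log (2 / ε))
  have hs3 : ∑ p ∈ s, (1 / (2 * p) : ℝ) = (∑ p ∈ s, (1 : ℝ) / p) / 2 := by
    rw [Finset.sum_div]
    apply Finset.sum_congr rfl
    intro p _
    rw [div_div, mul_comm]
  refine ⟨s, fun r hr => ⟨(hs1 r hr).1, lt_of_le_of_lt (le_max_left _ _) (hs1 r hr).2.2⟩, ?_⟩
  have h1 := count_real s (fun p => p ^ 2)
    (fun p hp => by have := (hs1 p hp).1.pos; positivity)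
    (fun i hi j hj hij => Nat.Coprime.pow 2 2
      ((Nat.coprime_primes (hs1 i hi).1 (hs1 j hj).1).2 hij))
    (fun p => badV l p) (fun p => (1 / (2 * p) : ℝ))
    (fun p hp => by
      obtain ⟨h2, h3, h4⟩ := hs1 p hp
      obtain ⟨ρ, h5, h6⟩ := hroot p h2 h3
      refine card_badV h2 ?_ h5 h6 h2.two_le
      intro hd
      have := Nat.le_of_dvd (by omega) hd
      have h7 : l < p := lt_of_le_of_lt (le_max_right _ _) h4
      omega)
  set C1 : ℝ := ∏ p ∈ s, (#(badV l p) : ℝ) with hC1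
  have hC1n : 0 ≤ C1 := Finset.prod_nonneg fun _ _ => by positivity
  obtain ⟨N0, hN0⟩ := exists_nat_ge (2 * C1 / ε)
  refine ⟨N0, fun N hN => ?_⟩
  have hNr : 2 * C1 / ε ≤ N := hN0.trans (by exact_mod_cast hN)
  have hsub : ({n : ℕ | ∀ r ∈ s, ¬ (r ∣ V l n ∧ ¬ r ^ 2 ∣ V l n)} ∩ Set.Iio N) ⊆
      (({n ∈ range N | ∀ p ∈ s, ((n : ℕ) : ZMod (p ^ 2)) ∈ badV l p} : Finset ℕ) : Set ℕ) := by
    rintro n ⟨hn1, hn2⟩
    simp only [Set.mem_ofPred_eq, Set.mem_Iio] at hn1 hn2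
    rw [mem_coe, Finset.mem_filter, Finset.mem_range]
    refine ⟨hn2, fun p hp => ?_⟩
    rw [mem_badV (hs1 p hp).1]
    exact hn1 p hp
  have h2 := Set.ncard_le_ncard hsub (Finset.finite_toSet _)
  rw [Set.ncard_coe_finset] at h2
  have h3 : (({n : ℕ | ∀ r ∈ s, ¬ (r ∣ V l n ∧ ¬ r ^ 2 ∣ V l n)} ∩ Set.Iio N).ncard : ℝ)
      ≤ #{n ∈ range N | ∀ p ∈ s, ((n : ℕ) : ZMod (p ^ 2)) ∈ badV l p} := by exact_mod_cast h2
  refine h3.trans ((h1 N).trans ?_)
  have h4 : Real.exp (-∑ p ∈ s, (1 / (2 * p) : ℝ)) ≤ ε / 2 := by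
    calc Real.exp (-∑ p ∈ s, (1 / (2 * p) : ℝ)) ≤ Real.exp (-Real.log (2 / ε)) :=
          Real.exp_le_exp.2 (by linarith)
      _ = ε / 2 := by rw [Real.exp_neg, Real.exp_log (by positivity), inv_div]
  have h5 : (N : ℝ) * Real.exp (-∑ p ∈ s, (1 / (2 * p) : ℝ)) ≤ ε / 2 * N := by
    rw [mul_comm]; exact mul_le_mul_of_nonneg_right h4 (by positivity)
  have h6 : C1 ≤ ε / 2 * N := by
    rw [div_le_iff₀ hε] at hNr; linarith
  linarith

end Pool.Agent.H74R2.PPC
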